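import Pool.Agent.Vlb.Prob
import Pool.Agent.Vor.Noise

/-!
Lower bounds of order `n^(3/2)`
-/

set_option autoImplicit false

namespace Pool.Agent.Vlb

open MeasureTheory Set
open scoped ENNReal NNReal
open Pool.Agent.Vor (E dl line Near Faces)

/-- the even indices -/
def evens (n : ℕ) : Finset (Fin n) := Finset.univ.filter fun i => (i : ℕ) % 2 = 0

/-- the odd indices -/
def odds (n : ℕ) : Finset (Fin n) := Finset.univ.filter fun i => (i : ℕ) % 2 = 1

/-- the first unit vector for even indices, the second one for odd indices -/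
noncomputable def axes (n : ℕ) (i : Fin n) : E :=
  if (i : ℕ) % 2 = 0 then EuclideanSpace.single 0 1 else EuclideanSpace.single 1 1

open Classical in
/-- the number of pairs -/
noncomputable def Gc {n : ℕ} (I J : Finset (Fin n)) (a : E) (r t : ℝ) (u p : Fin n → E) : ℝ≥0∞ :=
  ∑ i ∈ I, ∑ j ∈ J, if Ev u p a r t i j then (1 : ℝ≥0∞) else 0

-- BEGIN low
/-- `t = λ / √n`, `λ = min (r/8) (1/(800 M + 1))`: `t ≤ r/8`, `800 M n t² = 800 M λ² ≤ 1`; row pev; `c = m0² κ r⁵ λ / 4096`. -/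
theorem low_pair {M m0 r κ : ℝ} (hM0 : 0 < M) (hm0 : 0 < m0) (hr : 0 < r) (hr1 : r ≤ 1)
    (hκ : 0 < κ) : ∃ c : ℝ, 0 < c ∧ ∀ n : ℕ, 0 < n → ∃ t : ℝ, 0 < t ∧ t ≤ r / 8 ∧
    ∀ f : Fin n → E → ℝ≥0, (∀ i, Measurable (f i)) → (∀ i, ∫⁻ x, f i x = 1) →
    (∀ i x, 1 < ‖x‖ → f i x = 0) → (∀ i x, (f i x : ℝ) ≤ M) → ∀ a : E, ‖a‖ ≤ 1 →
    ∀ i j : Fin n, i ≠ j → (∀ x, ‖x - a‖ ≤ r / 2 → m0 ≤ f i x) →
    (∀ x, ‖x - a‖ ≤ r / 2 → m0 ≤ f j x) → ∀ u : Fin n → E, (∀ i, ‖u i‖ = 1) →
    κ ^ 2 ≤ 1 - (inner ℝ (u i) (u j) : ℝ) ^ 2 →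
    ENNReal.ofReal (c / Real.sqrt n) ≤
      (Measure.pi fun i => (volume : Measure E).withDensity fun x => (f i x : ℝ≥0∞))
        {p | Ev u p a r t i j} := by
  obtain ⟨L, hL⟩ : ∃ L : ℝ, L = min (r / 8) (1 / (800 * M + 1)) := ⟨_, rfl⟩
  have hL0 : 0 < L := by
    rw [hL]
    exact lt_min (by positivity) (by positivity)
  have hL1 : L ≤ r / 8 := by rw [hL]; exact min_le_left _ _
  have hL2 : L ≤ 1 / (800 * M + 1) := by rw [hL]; exact min_le_right _ _
  have hLM : 800 * M * L ^ 2 ≤ 1 := by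
    have h1 : L ≤ 1 := by linarith
    have h2 : (800 * M + 1) * L ≤ 1 := by
      have := mul_le_mul_of_nonneg_left hL2 (by positivity : (0 : ℝ) ≤ 800 * M + 1)
      rwa [mul_one_div_cancel (by positivity)] at this
    have h3 : L ^ 2 ≤ L := by nlinarith
    have h4 : 800 * M * L ^ 2 ≤ 800 * M * L := mul_le_mul_of_nonneg_left h3 (by positivity)
    nlinarith
  refine ⟨m0 ^ 2 * κ * r ^ 5 * L / 4096, by positivity, fun n hn => ?_⟩
  have hnr : (1 : ℝ) ≤ n := by exact_mod_cast hn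
  have hs1 : 1 ≤ Real.sqrt n := Real.one_le_sqrt.2 hnr
  have hs0 : 0 < Real.sqrt n := by linarith
  have hss : Real.sqrt n ^ 2 = n := Real.sq_sqrt (by linarith)
  refine ⟨L / Real.sqrt n, by positivity, ?_, ?_⟩
  · exact (div_le_self hL0.le hs1).trans hL1
  · intro f hf h1 h0 hM a ha i j hij hi hj u hu hc
    have ht : 0 < L / Real.sqrt n := by positivity
    have htn : 800 * M * n * (L / Real.sqrt n) ^ 2 ≤ 1 := by
      have e : 800 * M * n * (L / Real.sqrt n) ^ 2 = 800 * M * L ^ 2 := by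
        rw [div_pow, hss]
        field_simp
      rw [e]
      exact hLM
    have h := prob_Ev hm0.le hf h1 h0 hM hij ha hr hr1 hi hj hu hκ hc ht
      ((div_le_self hL0.le hs1).trans hL1) htn
    refine le_trans (ENNReal.ofReal_le_ofReal (le_of_eq ?_)) h
    ring
-- END low

-- BEGIN mxd
/-- `Vor.density_K` gives `K > 0`. If `f < 1/5` on the closed unit ball then `∫ f ≤ (1/5)(4π/3) < 1`; so `f x₀ ≥ 1/5` for some `‖x₀‖ ≤ 1`, and `f x ≥ 1/5 - K ‖x - x₀‖`. -/
theorem exists_ball {K : ℝ≥0} {f : E → ℝ≥0} (hK : LipschitzWith K f) (h0 : ∀ x, 1 < ‖x‖ → f x = 0)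
    (h1 : ∫⁻ x, f x = 1) : ∃ x₀ : E, ‖x₀‖ ≤ 1 ∧ ∀ x, ‖x - x₀‖ ≤ 1 / (10 * K) → (1 / 10 : ℝ) ≤ f x := by
  have hK1 := Vor.density_K hK h0 h1
  have hK0 : 0 < (K : ℝ) := by linarith
  obtain ⟨x₀, hx₀, hf⟩ : ∃ x₀ : E, ‖x₀‖ ≤ 1 ∧ (1 / 5 : ℝ) ≤ f x₀ := by
    by_contra hcon
    push Not at hcon
    have h2 : ∫⁻ w, (f w : ℝ≥0∞) ≤ ∫⁻ w, (Metric.closedBall (0 : E) 1).indicator
        (fun _ => ENNReal.ofReal (1 / 5)) w := by
      refine lintegral_mono fun w => ?_
      by_cases hw : w ∈ Metric.closedBall (0 : E) 1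
      · rw [indicator_of_mem hw]
        have hw1 : ‖w‖ ≤ 1 := by rwa [Metric.mem_closedBall, dist_zero_right] at hw
        rw [← ENNReal.ofReal_coe_nnreal]
        exact ENNReal.ofReal_le_ofReal (hcon w hw1).le
      · rw [indicator_of_notMem hw, h0 w]
        · simp
        · rwa [Metric.mem_closedBall, dist_zero_right, not_le] at hw
    rw [h1, lintegral_indicator measurableSet_closedBall, setLIntegral_const,
      EuclideanSpace.volume_closedBall_fin_three, ← ENNReal.ofReal_one] at h2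
    rw [← ENNReal.ofReal_pow (by norm_num), ← ENNReal.ofReal_mul (by positivity),
      ← ENNReal.ofReal_mul (by positivity), ENNReal.ofReal_le_ofReal_iff (by positivity)] at h2
    have := Real.pi_lt_d2
    nlinarith
  refine ⟨x₀, hx₀, fun x hx => ?_⟩
  have h3 : |(f x₀ : ℝ) - f x| ≤ K * ‖x₀ - x‖ := by
    have h := hK.dist_le_mul x₀ x
    rwa [NNReal.dist_eq, dist_eq_norm] at h
  have h4 : (K : ℝ) * ‖x₀ - x‖ ≤ 1 / 10 := by
    rw [norm_sub_rev]
    calc (K : ℝ) * ‖x - x₀‖ ≤ K * (1 / (10 * K)) := mul_le_mul_of_nonneg_left hx hK0.le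
      _ = 1 / 10 := by field_simp
  have h5 := (abs_le.1 h3).2
  linarith
-- END mxd

-- BEGIN net
/-- `Vor.exists_grid` with `δ = ρ/2`, or compactness of the unit ball; pigeonhole (`Finset.exists_le_card_fiber_of_mul_le_card_of_maps_to`), `a = x i₀` for one `i₀` in the class. -/
theorem exists_class {ρ : ℝ} (hρ : 0 < ρ) (hρ1 : ρ ≤ 1) : ∃ N : ℕ, 0 < N ∧
    ∀ (n : ℕ) (x : Fin n → E), (∀ i, ‖x i‖ ≤ 1) → ∃ a : E, ‖a‖ ≤ 1 ∧ ∃ I : Finset (Fin n),
      n ≤ N * I.card ∧ ∀ i ∈ I, ‖x i - a‖ ≤ ρ := by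
  classical
  obtain ⟨G, -, hG, -⟩ := Vor.exists_grid (δ := ρ / 2) (by linarith) (by linarith)
  have hGn : G.Nonempty := by
    obtain ⟨g, hg, -⟩ := hG 0 (by simp)
    exact ⟨g, hg⟩
  refine ⟨G.card, hGn.card_pos, ?_⟩
  intro n x hx
  rcases Nat.eq_zero_or_pos n with rfl | hn
  · exact ⟨0, by simp, ∅, by simp, by simp⟩
  choose g hg hgx using fun i => hG (x i) (hx i)
  have hex : ∃ y ∈ G, n ≤ G.card * (Finset.univ.filter fun i => g i = y).card := by
    by_contra hcon
    push Not at hcon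
    have h1 : (Finset.univ : Finset (Fin n)).card = ∑ y ∈ G, (Finset.univ.filter fun i => g i = y).card :=
      Finset.card_eq_sum_card_fiberwise (f := g) (t := G) (fun i _ => hg i)
    rw [Finset.card_univ, Fintype.card_fin] at h1
    have h2 : ∑ y ∈ G, G.card * (Finset.univ.filter fun i => g i = y).card < ∑ y ∈ G, n :=
      Finset.sum_lt_sum_of_nonempty hGn hcon
    rw [← Finset.mul_sum, ← h1, Finset.sum_const, smul_eq_mul] at h2
    exact lt_irrefl _ h2
  obtain ⟨y, -, hy⟩ := hex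
  have hI : (Finset.univ.filter fun i => g i = y).Nonempty := by
    rw [Finset.nonempty_iff_ne_empty]
    intro h0
    rw [h0, Finset.card_empty, Nat.mul_zero] at hy
    omega
  obtain ⟨i₀, hi₀⟩ := hI
  have hi₀y : g i₀ = y := (Finset.mem_filter.1 hi₀).2
  refine ⟨x i₀, hx i₀, _, hy, ?_⟩
  intro i hi
  have hiy : g i = y := (Finset.mem_filter.1 hi).2
  have h1 := hgx i
  have h2 := hgx i₀
  rw [hiy] at h1
  rw [hi₀y] at h2
  have h3 : x i - x i₀ = (x i - y) - (x i₀ - y) := by abel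
  rw [h3]
  have h4 := norm_sub_le (x i - y) (x i₀ - y)
  linarith
-- END net

-- BEGIN hlv
/-- `Finset.exists_subset_card_eq` for `#I / 2`, the rest. -/
theorem exists_halves {n : ℕ} (I : Finset (Fin n)) (hI : 2 ≤ I.card) :
    ∃ A B : Finset (Fin n), A ⊆ I ∧ B ⊆ I ∧ Disjoint A B ∧
      (I.card : ℝ) ^ 2 / 6 ≤ (A.card : ℝ) * (B.card : ℝ) := by
  obtain ⟨A, hA, hAc⟩ := Finset.exists_subset_card_eq (Nat.div_le_self I.card 2)
  refine ⟨A, I \ A, hA, Finset.sdiff_subset, Finset.disjoint_sdiff, ?_⟩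
  have h1 : (I \ A).card + A.card = I.card := Finset.card_sdiff_add_card_eq_card hA
  have h2 : I.card ^ 2 ≤ 6 * (A.card * (I \ A).card) := by
    generalize (I \ A).card = b at h1
    generalize A.card = a at h1 hAc
    generalize I.card = m at h1 hAc hI
    rcases Nat.even_or_odd' m with ⟨k, hk | hk⟩
    · have ha : a = k := by omega
      have hb : b = k := by omega
      have hk1 : 1 ≤ k := by omega
      rw [hk, ha, hb]
      nlinarith
    · have ha : a = k := by omega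
      have hb : b = k + 1 := by omega
      have hk1 : 1 ≤ k := by omega
      rw [hk, ha, hb]
      nlinarith
  have h3 : (I.card : ℝ) ^ 2 ≤ 6 * ((A.card : ℝ) * ((I \ A).card : ℝ)) := by exact_mod_cast h2
  linarith
-- END hlv

-- BEGIN cnt
private theorem cnt_fin (n : ℕ) (p : ℕ → Prop) [DecidablePred p] :
    (Finset.univ.filter fun i : Fin n => p (i : ℕ)).card = ((Finset.range n).filter p).card := by
  refine Finset.card_bij (fun i _ => (i : ℕ)) ?_ ?_ ?_
  · intro i hi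
    rw [Finset.mem_filter, Finset.mem_range]
    exact ⟨i.2, (Finset.mem_filter.1 hi).2⟩
  · intro i _ j _ hij
    exact Fin.ext hij
  · intro m hm
    rw [Finset.mem_filter, Finset.mem_range] at hm
    exact ⟨⟨m, hm.1⟩, Finset.mem_filter.2 ⟨Finset.mem_univ _, hm.2⟩, rfl⟩

private theorem cnt_even (n : ℕ) : ((Finset.range n).filter fun i => i % 2 = 0).card = (n + 1) / 2 := by
  induction n with
  | zero => rfl
  | succ n ih =>
    rw [Finset.range_add_one, Finset.filter_insert]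
    split_ifs with h
    · rw [Finset.card_insert_of_notMem (by simp), ih]
      omega
    · rw [ih]
      omega

private theorem cnt_odd (n : ℕ) : ((Finset.range n).filter fun i => i % 2 = 1).card = n / 2 := by
  induction n with
  | zero => rfl
  | succ n ih =>
    rw [Finset.range_add_one, Finset.filter_insert]
    split_ifs with h
    · rw [Finset.card_insert_of_notMem (by simp), ih]
      omega
    · rw [ih]
      omega

/-- `#(evens n) ≥ n/2`, `#(odds n) ≥ n/3` for `n ≥ 2`; disjoint. -/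
theorem card_pairs {n : ℕ} (hn : 2 ≤ n) :
    (n : ℝ) ^ 2 / 6 ≤ ((evens n).card : ℝ) * ((odds n).card : ℝ) ∧ Disjoint (evens n) (odds n) := by
  refine ⟨?_, ?_⟩
  · have h1 : (evens n).card = (n + 1) / 2 := (cnt_fin n fun i => i % 2 = 0).trans (cnt_even n)
    have h2 : (odds n).card = n / 2 := (cnt_fin n fun i => i % 2 = 1).trans (cnt_odd n)
    rw [h1, h2]
    have h3 : n ≤ 2 * ((n + 1) / 2) := by omega
    have h4 : n ≤ 3 * (n / 2) := by omega
    have h5 : (n : ℝ) ≤ 2 * (((n + 1) / 2 : ℕ) : ℝ) := by exact_mod_cast h3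
    have h6 : (n : ℝ) ≤ 3 * ((n / 2 : ℕ) : ℝ) := by exact_mod_cast h4
    have h7 : (0 : ℝ) ≤ n := Nat.cast_nonneg n
    have h8 := mul_le_mul h5 h6 h7 (by positivity)
    nlinarith
  · rw [Finset.disjoint_left]
    intro i h1 h2
    have h3 := (Finset.mem_filter.1 h1).2
    have h4 := (Finset.mem_filter.1 h2).2
    omega
-- END cnt

-- BEGIN gme
/-- From row mev: finite sum of indicators. -/
theorem measurable_Gc {Ω : Type} [MeasurableSpace Ω] {n : ℕ} {u p : Ω → Fin n → E}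
    (hu : ∀ i, Measurable fun ω => u ω i) (hp : ∀ i, Measurable fun ω => p ω i)
    (I J : Finset (Fin n)) (a : E) (r t : ℝ) :
    Measurable fun ω => Gc I J a r t (u ω) (p ω) := by
  unfold Gc
  refine Finset.measurable_sum _ fun i _ => Finset.measurable_sum _ fun j _ => ?_
  exact Measurable.ite (measurableSet_Ev hu hp a r t i j).1 measurable_const measurable_const
-- END gme

-- BEGIN smo
private theorem smo_axes {n : ℕ} (i : Fin n) : ‖axes n i‖ = 1 := by
  unfold axes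
  split_ifs
  · rw [PiLp.norm_single, norm_one]
  · rw [PiLp.norm_single, norm_one]

private theorem smo_inner {n : ℕ} {i j : Fin n} (hi : i ∈ evens n) (hj : j ∈ odds n) :
    (inner ℝ (axes n i) (axes n j) : ℝ) = 0 := by
  have h1 : (i : ℕ) % 2 = 0 := (Finset.mem_filter.1 hi).2
  have h2 : (j : ℕ) % 2 = 1 := (Finset.mem_filter.1 hj).2
  unfold axes
  rw [if_pos h1, if_neg (by omega), EuclideanSpace.inner_single_left]
  simp

private theorem smo_prob {s : ℝ} (hs : 0 < s) :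
    IsProbabilityMeasure ((volume : Measure E).withDensity fun x => (Vor.tent s 0 x : ℝ≥0∞)) := by
  refine ⟨?_⟩
  rw [withDensity_apply _ MeasurableSet.univ, Measure.restrict_univ]
  exact Vor.tent_int hs 0

/-- `M = 1/s³`, `m0 = 3/(2 π s³)`, `r = s`, `κ = 1`, `a = 0`: `tent s 0 x = 3/(π s⁴) (s - ‖x‖)₊` is `≤ 1/s³` and `≥ 3/(2 π s³)` for `‖x‖ ≤ s/2`; `Vor.tent_int`, `Vor.tent_zero`, `Vor.tent_lip`. For `n ≥ 2`: `G p = Gc (evens n) (odds n) 0 s t (axes n) p`, rows low, inj (`B = closedBall 0 1`), cnt, gme; `∫ G ≥ (n²/6) (c₀ / √n)`. For `n = 1`: `G = 1`, row one. `c = min 1 (c₀ / 6)`. -/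
theorem lower_smoothed {s : ℝ} (hs : 0 < s) (hs1 : s ≤ 1) : ∃ c : ℝ, 0 < c ∧ ∀ n : ℕ, 0 < n →
    ∃ G : (Fin n → E) → ℝ≥0∞, Measurable G ∧
      (∀ p, G p ≤ (({f | f ∈ Faces (axes n) p ∧ (f ∩ Metric.closedBall 0 1).Nonempty}.encard : ℕ∞) :
        ℝ≥0∞)) ∧
      ENNReal.ofReal (c * n ^ (3 / 2 : ℝ)) ≤ ∫⁻ p, G p
        ∂(Measure.pi fun _ => (volume : Measure E).withDensity fun x => (Vor.tent s 0 x : ℝ≥0∞)) := by
  classical
  have hpi := Real.pi_pos
  have hQ : 0 < 3 / (Real.pi * s ^ 4) := by positivity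
  obtain ⟨c0, hc0, hlow⟩ := low_pair (M := 3 / (Real.pi * s ^ 4) * s) (m0 := 3 / (Real.pi * s ^ 4) * (s / 2))
    (r := s) (κ := 1) (by positivity) (by positivity) hs hs1 one_pos
  refine ⟨min 1 (c0 / 6), lt_min one_pos (by positivity), fun n hn => ?_⟩
  have hprob := smo_prob hs
  by_cases hn2 : n < 2
  · have hn1 : n = 1 := by omega
    subst hn1
    refine ⟨fun _ => 1, measurable_const, fun p => one_le (axes 1) p (Metric.mem_closedBall_self zero_le_one), ?_⟩
    rw [lintegral_const, measure_univ, one_mul, ← ENNReal.ofReal_one]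
    apply ENNReal.ofReal_le_ofReal
    rw [Nat.cast_one, Real.one_rpow, mul_one]
    exact min_le_left _ _
  · push Not at hn2
    obtain ⟨t, ht, htr, h⟩ := hlow n hn
    obtain ⟨hcp, hdis⟩ := card_pairs hn2
    refine ⟨fun p => Gc (evens n) (odds n) 0 s t (axes n) p, ?_, ?_, ?_⟩
    · exact measurable_Gc (u := fun _ : Fin n → E => axes n) (p := fun p : Fin n → E => p)
        (fun i => measurable_const) (fun i => measurable_pi_apply i) (evens n) (odds n) 0 s t
    · intro p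
      exact pairs_le (fun i => smo_axes i) ht htr (evens n) (odds n) hdis
        (Metric.closedBall_subset_closedBall (by linarith))
    · have hms : ∀ i j : Fin n, MeasurableSet {p : Fin n → E | Ev (axes n) p 0 s t i j} := fun i j =>
        (measurableSet_Ev (u := fun _ : Fin n → E => axes n) (p := fun p : Fin n → E => p)
          (fun i => measurable_const) (fun i => measurable_pi_apply i) 0 s t i j).1
      have hmeas : ∀ i j : Fin n, Measurable fun p : Fin n → E =>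
          if Ev (axes n) p 0 s t i j then (1 : ℝ≥0∞) else 0 := fun i j =>
        Measurable.ite (hms i j) measurable_const measurable_const
      have hint : ∀ i j : Fin n, ∫⁻ p, (if Ev (axes n) p 0 s t i j then (1 : ℝ≥0∞) else 0)
          ∂(Measure.pi fun _ : Fin n => (volume : Measure E).withDensity fun x => (Vor.tent s 0 x : ℝ≥0∞)) =
          (Measure.pi fun _ : Fin n => (volume : Measure E).withDensity fun x => (Vor.tent s 0 x : ℝ≥0∞))
            {p | Ev (axes n) p 0 s t i j} := by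
        intro i j
        rw [← lintegral_indicator_one (hms i j)]
        apply lintegral_congr
        intro p
        by_cases hE : Ev (axes n) p 0 s t i j
        · rw [if_pos hE, Set.indicator_of_mem (show p ∈ {p | Ev (axes n) p 0 s t i j} from hE)]
          rfl
        · rw [if_neg hE, Set.indicator_of_notMem (show p ∉ {p | Ev (axes n) p 0 s t i j} from hE)]
      have hval : ∀ x : E, ((Vor.tent s 0 x : ℝ≥0) : ℝ) = max (3 / (Real.pi * s ^ 4) * (s - ‖x‖)) 0 := by
        intro x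
        unfold Vor.tent
        rw [sub_zero, Real.coe_toNNReal']
      have hlo : ∀ x : E, ‖x - 0‖ ≤ s / 2 → 3 / (Real.pi * s ^ 4) * (s / 2) ≤ ((Vor.tent s 0 x : ℝ≥0) : ℝ) := by
        intro x hx
        rw [hval]
        rw [sub_zero] at hx
        refine le_trans ?_ (le_max_left _ _)
        apply mul_le_mul_of_nonneg_left _ hQ.le
        linarith
      have hsum : ∫⁻ p, Gc (evens n) (odds n) 0 s t (axes n) p
          ∂(Measure.pi fun _ : Fin n => (volume : Measure E).withDensity fun x => (Vor.tent s 0 x : ℝ≥0∞)) =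
          ∑ i ∈ evens n, ∑ j ∈ odds n,
            (Measure.pi fun _ : Fin n => (volume : Measure E).withDensity fun x => (Vor.tent s 0 x : ℝ≥0∞))
              {p | Ev (axes n) p 0 s t i j} := by
        unfold Gc
        rw [lintegral_finsetSum _ (fun i _ => Finset.measurable_sum _ fun j _ => hmeas i j)]
        refine Finset.sum_congr rfl fun i _ => ?_
        rw [lintegral_finsetSum _ (fun j _ => hmeas i j)]
        exact Finset.sum_congr rfl fun j _ => hint i j
      rw [hsum]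
      have hterm : ∀ i ∈ evens n, ∀ j ∈ odds n, ENNReal.ofReal (c0 / Real.sqrt n) ≤
          (Measure.pi fun _ : Fin n => (volume : Measure E).withDensity fun x => (Vor.tent s 0 x : ℝ≥0∞))
            {p | Ev (axes n) p 0 s t i j} := by
        intro i hi j hj
        refine h (fun _ => Vor.tent s 0) (fun _ => (Vor.tent_lip hs 0).continuous.measurable)
          (fun _ => Vor.tent_int hs 0) (fun _ x hx => Vor.tent_zero hs (by rw [norm_zero, zero_add]; exact hs1) x hx)
          (fun _ x => ?_) 0 (by rw [norm_zero]; exact zero_le_one) i j ?_ hlo hlo (axes n) (fun i => smo_axes i) ?_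
        · rw [hval]
          apply max_le
          · apply mul_le_mul_of_nonneg_left _ hQ.le
            linarith [norm_nonneg x]
          · positivity
        · rintro rfl
          exact Finset.disjoint_left.1 hdis hi hj
        · rw [smo_inner hi hj]
          norm_num
      refine le_trans ?_ (Finset.sum_le_sum fun i hi => Finset.sum_le_sum fun j hj => hterm i hi j hj)
      rw [Finset.sum_const, Finset.sum_const, smul_smul, nsmul_eq_mul, ← ENNReal.ofReal_natCast,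
        ← ENNReal.ofReal_mul (Nat.cast_nonneg _)]
      apply ENNReal.ofReal_le_ofReal
      have hn0 : (0 : ℝ) < n := by exact_mod_cast hn
      have hrp : (n : ℝ) ^ (3 / 2 : ℝ) = (n : ℝ) ^ 2 / Real.sqrt n := by
        rw [eq_div_iff (Real.sqrt_pos.2 hn0).ne', Real.sqrt_eq_rpow, ← Real.rpow_add hn0]
        norm_num
      rw [hrp]
      push_cast
      have hsq : 0 < Real.sqrt n := Real.sqrt_pos.2 hn0
      have hm : min 1 (c0 / 6) ≤ c0 / 6 := min_le_right _ _
      calc min 1 (c0 / 6) * ((n : ℝ) ^ 2 / Real.sqrt n) ≤ c0 / 6 * ((n : ℝ) ^ 2 / Real.sqrt n) :=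
            mul_le_mul_of_nonneg_right hm (by positivity)
        _ = ((n : ℝ) ^ 2 / 6) * (c0 / Real.sqrt n) := by ring
        _ ≤ (((evens n).card : ℝ) * ((odds n).card : ℝ)) * (c0 / Real.sqrt n) :=
            mul_le_mul_of_nonneg_right hcp (by positivity)
-- END smo

-- BEGIN who
private theorem who_ae {n : ℕ} (ν : Fin n → Measure E) [∀ i, IsProbabilityMeasure (ν i)]
    (hν : ∀ i, ν i ≪ volume) : ∀ᵐ v ∂(Measure.pi ν), ∀ k, v k ≠ 0 := by
  refine ae_all_iff.2 fun i => ?_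
  have h2 : ∀ᵐ x ∂(ν i), x ≠ 0 := by
    have h0 : ν i {0} = 0 := hν i (measure_singleton 0)
    filter_upwards [measure_eq_zero_iff_ae_notMem.1 h0] with x hx hx0
    exact hx hx0
  exact (Measure.quasiMeasurePreserving_eval ν i).ae h2

private theorem who_um {n : ℕ} : ∀ k : Fin n,
    Measurable fun v : Fin n → E => ‖v k‖⁻¹ • v k := by
  intro k
  have h : Measurable fun v : Fin n → E => v k := measurable_pi_apply k
  exact (h.norm.inv).smul h

private theorem who_unit {n : ℕ} {v : Fin n → E} (hv : ∀ k, v k ≠ 0) (k : Fin n) :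
    ‖‖v k‖⁻¹ • v k‖ = 1 := by
  rw [norm_smul, norm_inv, norm_norm, inv_mul_cancel₀ (norm_ne_zero_iff.2 (hv k))]

/-- the numbers -/
private theorem who_num {n N a b k : ℕ} {c c0 : ℝ} (hn : 0 < n) (hN : 0 < N) (hc0 : 0 < c0)
    (hc : c ≤ c0 / (12 * N ^ 2)) (hk : n ≤ N * k)
    (hab : (k : ℝ) ^ 2 / 6 ≤ (a : ℝ) * (b : ℝ)) :
    ENNReal.ofReal (c * n ^ (3 / 2 : ℝ)) ≤
      (a : ℝ≥0∞) * ((b : ℝ≥0∞) * (ENNReal.ofReal (c0 / Real.sqrt n) * ENNReal.ofReal (1 / 2))) := by
  have hnr : (0 : ℝ) < n := by exact_mod_cast hn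
  have hNr : (0 : ℝ) < N := by exact_mod_cast hN
  have hsq : 0 < Real.sqrt n := Real.sqrt_pos.2 hnr
  have e1 : (a : ℝ≥0∞) = ENNReal.ofReal (a : ℝ) := by rw [ENNReal.ofReal_natCast]
  have e2 : (b : ℝ≥0∞) = ENNReal.ofReal (b : ℝ) := by rw [ENNReal.ofReal_natCast]
  rw [e1, e2, ← ENNReal.ofReal_mul (by positivity), ← ENNReal.ofReal_mul (by positivity),
    ← ENNReal.ofReal_mul (by positivity)]
  apply ENNReal.ofReal_le_ofReal
  have hp : (n : ℝ) ^ (3 / 2 : ℝ) = n ^ 2 / Real.sqrt n := by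
    rw [eq_div_iff hsq.ne', Real.sqrt_eq_rpow, ← Real.rpow_add hnr, ← Real.rpow_natCast]
    norm_num
  have hk' : (n : ℝ) ≤ N * k := by exact_mod_cast hk
  have h3 : (n : ℝ) ^ 2 ≤ (N * k) ^ 2 := by
    have : (0 : ℝ) ≤ n := hnr.le
    nlinarith
  have h4 : (n : ℝ) ^ 2 / (6 * N ^ 2) ≤ (a : ℝ) * b := by
    refine le_trans ?_ hab
    rw [div_le_div_iff₀ (by positivity) (by norm_num)]
    nlinarith [h3]
  calc c * (n : ℝ) ^ (3 / 2 : ℝ) ≤ c0 / (12 * N ^ 2) * (n ^ 2 / Real.sqrt n) := by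
        rw [hp]
        exact mul_le_mul_of_nonneg_right hc (by positivity)
    _ = (n : ℝ) ^ 2 / (6 * N ^ 2) * (c0 / Real.sqrt n * (1 / 2)) := by
        field_simp
        ring
    _ ≤ (a * b) * (c0 / Real.sqrt n * (1 / 2)) :=
        mul_le_mul_of_nonneg_right h4 (by positivity)
    _ = a * (b * (c0 / Real.sqrt n * (1 / 2))) := by ring

open Classical in
/-- the sum over the pairs -/
private theorem who_sum {n : ℕ} (μ ν : Fin n → Measure E) [∀ i, IsProbabilityMeasure (μ i)]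
    [∀ i, IsProbabilityMeasure (ν i)] (hν : ∀ i, ν i ≪ volume) (A B : Finset (Fin n))
    (hAB : Disjoint A B) (a : E) {r t κ : ℝ} {C0 : ℝ≥0∞}
    (hlow : ∀ i ∈ A, ∀ j ∈ B, ∀ u : Fin n → E, (∀ k, ‖u k‖ = 1) →
      κ ^ 2 ≤ 1 - (inner ℝ (u i) (u j) : ℝ) ^ 2 → C0 ≤ Measure.pi μ {p | Ev u p a r t i j})
    (hdir : ∀ i j : Fin n, i ≠ j → ENNReal.ofReal (1 / 2) ≤ Measure.pi ν
      {v | κ ^ 2 ≤ 1 - (inner ℝ (‖v i‖⁻¹ • v i) (‖v j‖⁻¹ • v j) : ℝ) ^ 2}) :
    Measurable (fun q : (Fin n → E) × (Fin n → E) =>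
      if ∀ k, q.2 k ≠ 0 then Gc A B a r t (fun k => ‖q.2 k‖⁻¹ • q.2 k) q.1 else 0) ∧
    (A.card : ℝ≥0∞) * ((B.card : ℝ≥0∞) * (C0 * ENNReal.ofReal (1 / 2))) ≤
      ∫⁻ q, (if ∀ k, q.2 k ≠ 0 then Gc A B a r t (fun k => ‖q.2 k‖⁻¹ • q.2 k) q.1 else 0)
        ∂((Measure.pi μ).prod (Measure.pi ν)) := by
  have hm1 : Measurable (fun q : (Fin n → E) × (Fin n → E) =>
      Gc A B a r t (fun k => ‖q.2 k‖⁻¹ • q.2 k) q.1) :=
    measurable_Gc (u := fun q : (Fin n → E) × (Fin n → E) => fun k => ‖q.2 k‖⁻¹ • q.2 k)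
      (p := fun q : (Fin n → E) × (Fin n → E) => q.1)
      (fun k => (who_um k).comp measurable_snd)
      (fun k => (measurable_pi_apply k).comp measurable_fst) A B a r t
  have hms : MeasurableSet {q : (Fin n → E) × (Fin n → E) | ∀ k, q.2 k ≠ 0} := by
    have e : {q : (Fin n → E) × (Fin n → E) | ∀ k, q.2 k ≠ 0} = ⋂ k, {q | q.2 k ≠ 0} := by
      ext q
      simp
    rw [e]
    refine MeasurableSet.iInter fun k => ?_
    have h : Measurable fun q : (Fin n → E) × (Fin n → E) => q.2 k :=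
      (measurable_pi_apply k).comp measurable_snd
    exact (h (measurableSet_singleton 0)).compl
  have hm : Measurable (fun q : (Fin n → E) × (Fin n → E) =>
      if ∀ k, q.2 k ≠ 0 then Gc A B a r t (fun k => ‖q.2 k‖⁻¹ • q.2 k) q.1 else 0) :=
    Measurable.ite hms hm1 measurable_const
  refine ⟨hm, ?_⟩
  rw [lintegral_prod_symm _ hm.aemeasurable]
  have hmp : ∀ (u : Fin n → E) (i j : Fin n), MeasurableSet {p : Fin n → E | Ev u p a r t i j} :=
    fun u i j => (measurableSet_Ev (u := fun _ : Fin n → E => u) (p := fun p : Fin n → E => p)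
      (fun _ => measurable_const) (fun k => measurable_pi_apply k) a r t i j).1
  have hin : ∀ v : Fin n → E, (∀ k, v k ≠ 0) →
      ∑ i ∈ A, ∑ j ∈ B, (if κ ^ 2 ≤ 1 - (inner ℝ (‖v i‖⁻¹ • v i) (‖v j‖⁻¹ • v j) : ℝ) ^ 2
        then C0 else 0) ≤
      ∫⁻ p, (if ∀ k, v k ≠ 0 then Gc A B a r t (fun k => ‖v k‖⁻¹ • v k) p else 0)
        ∂(Measure.pi μ) := by
    intro v hv
    simp only [if_pos hv]
    unfold Gc
    rw [lintegral_finsetSum]
    · refine Finset.sum_le_sum fun i hi => ?_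
      rw [lintegral_finsetSum]
      · refine Finset.sum_le_sum fun j hj => ?_
        have e : (fun p : Fin n → E => if Ev (fun k => ‖v k‖⁻¹ • v k) p a r t i j
            then (1 : ℝ≥0∞) else 0) =
            {p : Fin n → E | Ev (fun k => ‖v k‖⁻¹ • v k) p a r t i j}.indicator fun _ => 1 := by
          funext p
          by_cases h : Ev (fun k => ‖v k‖⁻¹ • v k) p a r t i j
          · rw [if_pos h, indicator_of_mem (by exact h)]
          · rw [if_neg h, indicator_of_notMem (by exact h)]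
        rw [e, lintegral_indicator (hmp _ _ _), setLIntegral_one]
        by_cases h : κ ^ 2 ≤ 1 - (inner ℝ (‖v i‖⁻¹ • v i) (‖v j‖⁻¹ • v j) : ℝ) ^ 2
        · rw [if_pos h]
          exact hlow i hi j hj _ (who_unit hv) h
        · rw [if_neg h]
          exact bot_le
      · intro j _
        exact Measurable.ite (hmp _ _ _) measurable_const measurable_const
    · intro i _
      refine Finset.measurable_sum _ fun j _ => ?_
      exact Measurable.ite (hmp _ _ _) measurable_const measurable_const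
  have hms2 : ∀ i j : Fin n, MeasurableSet {v : Fin n → E |
      κ ^ 2 ≤ 1 - (inner ℝ (‖v i‖⁻¹ • v i) (‖v j‖⁻¹ • v j) : ℝ) ^ 2} := by
    intro i j
    have h := ((who_um (n := n) i).inner (𝕜 := ℝ) (who_um (n := n) j))
    exact measurableSet_le measurable_const (measurable_const.sub (h.pow_const 2))
  calc (A.card : ℝ≥0∞) * ((B.card : ℝ≥0∞) * (C0 * ENNReal.ofReal (1 / 2)))
      = ∑ i ∈ A, ∑ j ∈ B, C0 * ENNReal.ofReal (1 / 2) := by
        rw [Finset.sum_const, Finset.sum_const, nsmul_eq_mul, nsmul_eq_mul]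
    _ ≤ ∑ i ∈ A, ∑ j ∈ B, C0 * Measure.pi ν
          {v | κ ^ 2 ≤ 1 - (inner ℝ (‖v i‖⁻¹ • v i) (‖v j‖⁻¹ • v j) : ℝ) ^ 2} := by
        refine Finset.sum_le_sum fun i hi => Finset.sum_le_sum fun j hj => ?_
        refine mul_le_mul' le_rfl (hdir i j ?_)
        exact Finset.disjoint_left.1 hAB hi |> fun h e => h (e ▸ hj)
    _ = ∫⁻ v, ∑ i ∈ A, ∑ j ∈ B,
          (if κ ^ 2 ≤ 1 - (inner ℝ (‖v i‖⁻¹ • v i) (‖v j‖⁻¹ • v j) : ℝ) ^ 2 then C0 else 0)
          ∂(Measure.pi ν) := by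
        rw [lintegral_finsetSum]
        · refine Finset.sum_congr rfl fun i _ => ?_
          rw [lintegral_finsetSum]
          · refine Finset.sum_congr rfl fun j _ => ?_
            have e : (fun v : Fin n → E =>
                if κ ^ 2 ≤ 1 - (inner ℝ (‖v i‖⁻¹ • v i) (‖v j‖⁻¹ • v j) : ℝ) ^ 2
                then C0 else 0) = {v : Fin n → E |
                  κ ^ 2 ≤ 1 - (inner ℝ (‖v i‖⁻¹ • v i) (‖v j‖⁻¹ • v j) : ℝ) ^ 2}.indicator
                  fun _ => C0 := by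
              funext v
              by_cases h : κ ^ 2 ≤ 1 - (inner ℝ (‖v i‖⁻¹ • v i) (‖v j‖⁻¹ • v j) : ℝ) ^ 2
              · rw [if_pos h, indicator_of_mem (by exact h)]
              · rw [if_neg h, indicator_of_notMem (by exact h)]
            rw [e, lintegral_indicator_const (hms2 i j)]
          · intro j _
            exact Measurable.ite (hms2 i j) measurable_const measurable_const
        · intro i _
          refine Finset.measurable_sum _ fun j _ => ?_
          exact Measurable.ite (hms2 i j) measurable_const measurable_const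
    _ ≤ ∫⁻ v, ∫⁻ p, (if ∀ k, v k ≠ 0 then Gc A B a r t (fun k => ‖v k‖⁻¹ • v k) p else 0)
          ∂(Measure.pi μ) ∂(Measure.pi ν) := by
        refine lintegral_mono_ae ?_
        filter_upwards [who_ae ν hν] with v hv
        exact hin v hv

/-- If `K = 0` there is nothing to show (`Vor.density_K`). `M = 4 K` (`Vor.density_bound`), `m0 = 1/10`, `r = min 1 (1/(10 K))`, `κ = min 1 (1/(90 M + 1))`, `N` from row net for `ρ = r/2`, `c₀` from row low. `n < 2 N`: `G = 1` (row one). `n ≥ 2 N`: the points `x₀ i` of row mxd, `a`, `I` from row net (`#I ≥ n/N ≥ 2`; `f i ≥ 1/10` for `‖x - a‖ ≤ r/2`, `i ∈ I`), `A`, `B` from row hlv, `G (p, v) = Gc A B a r t (fun k => ‖v k‖⁻¹ • v k) p` if all `v k ≠ 0`, else 0 (rows fsc, inj with `B = univ`, gme). `lintegral_prod_symm`, row low for almost every `v` with the angle condition, row dir: `∫ G ≥ #A #B (1/2) (c₀/√n)`, `#A #B ≥ (n/N)²/6`. -/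
theorem lower_whole (K : ℝ≥0) : ∃ c : ℝ, 0 < c ∧ ∀ n : ℕ, 0 < n → ∀ f g : Fin n → E → ℝ≥0,
    (∀ i, LipschitzWith K (f i)) → (∀ i, LipschitzWith K (g i)) →
    (∀ i x, 1 < ‖x‖ → f i x = 0) → (∀ i x, 1 < ‖x‖ → g i x = 0) →
    (∀ i, ∫⁻ x, f i x = 1) → (∀ i, ∫⁻ x, g i x = 1) →
    ∃ G : (Fin n → E) × (Fin n → E) → ℝ≥0∞, Measurable G ∧
      (∀ q, G q ≤ (((Faces q.2 q.1).encard : ℕ∞) : ℝ≥0∞)) ∧
      ENNReal.ofReal (c * n ^ (3 / 2 : ℝ)) ≤
        ∫⁻ q, G q ∂((Measure.pi fun i => (volume : Measure E).withDensity fun x => (f i x : ℝ≥0∞)).prod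
          (Measure.pi fun i => (volume : Measure E).withDensity fun x => (g i x : ℝ≥0∞))) := by
  by_cases hK : (K : ℝ) ≤ 0
  · refine ⟨1, one_pos, fun n hn f g hf _ hf0 _ hf1 _ => ?_⟩
    exfalso
    have := Vor.density_K (hf ⟨0, hn⟩) (hf0 ⟨0, hn⟩) (hf1 ⟨0, hn⟩)
    linarith
  have hK0 : 0 < (K : ℝ) := not_le.1 hK
  obtain ⟨r, hr⟩ : ∃ r : ℝ, r = min 1 (1 / (10 * K)) := ⟨_, rfl⟩
  have hr0 : 0 < r := by
    rw [hr]
    exact lt_min one_pos (one_div_pos.2 (mul_pos (by norm_num) hK0))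
  have hr1 : r ≤ 1 := by rw [hr]; exact min_le_left _ _
  have hrK : r ≤ 1 / (10 * K) := by rw [hr]; exact min_le_right _ _
  have h4K : 0 < 4 * (K : ℝ) := mul_pos (by norm_num) hK0
  obtain ⟨κ, hκd⟩ : ∃ κ : ℝ, κ = 1 / (90 * (4 * K) + 1) := ⟨_, rfl⟩
  have hκ0 : 0 < κ := by rw [hκd]; positivity
  have hκ1 : κ ≤ 1 := by
    rw [hκd, div_le_one (by positivity)]
    linarith
  have hκM : 90 * (4 * (K : ℝ)) * κ ^ 2 ≤ 1 := by
    have h1 : κ ^ 2 ≤ κ := by nlinarith
    have h2 : (90 * (4 * (K : ℝ)) + 1) * κ = 1 := by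
      rw [hκd, mul_one_div_cancel (by positivity)]
    nlinarith
  obtain ⟨c0, hc0, hlow⟩ := low_pair (M := 4 * K) (m0 := 1 / 10) (r := r) (κ := κ) h4K
    (by norm_num) hr0 hr1 hκ0
  obtain ⟨N, hN, hnet⟩ := exists_class (ρ := r / 2) (by positivity) (by linarith)
  have hNr : (0 : ℝ) < N := by exact_mod_cast hN
  obtain ⟨c, hc⟩ : ∃ c : ℝ, c = min (1 / (2 * (N : ℝ)) ^ (3 / 2 : ℝ)) (c0 / (12 * N ^ 2)) := ⟨_, rfl⟩
  have hcpos : 0 < c := by
    rw [hc]
    exact lt_min (by positivity) (by positivity)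
  refine ⟨c, hcpos, fun n hn f g hf hg hf0 hg0 hf1 hg1 => ?_⟩
  have hnr : (0 : ℝ) < n := by exact_mod_cast hn
  have pf : ∀ i, IsProbabilityMeasure
      ((volume : Measure E).withDensity (fun x => (f i x : ℝ≥0∞))) :=
    fun i => Vor.main_prob (hf1 i)
  have pg : ∀ i, IsProbabilityMeasure
      ((volume : Measure E).withDensity (fun x => (g i x : ℝ≥0∞))) :=
    fun i => Vor.main_prob (hg1 i)
  have hfull : ∀ v p : Fin n → E,
      {f | f ∈ Faces v p ∧ (f ∩ univ).Nonempty}.encard ≤ (Faces v p).encard :=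
    fun v p => Set.encard_le_encard fun f hf => hf.1
  by_cases hn2 : n < 2 * N
  · refine ⟨fun _ => 1, measurable_const, fun q => ?_, ?_⟩
    · refine (one_le q.2 q.1 (B := univ) (mem_univ _)).trans ?_
      exact_mod_cast hfull q.2 q.1
    · rw [lintegral_const, one_mul, measure_univ, ← ENNReal.ofReal_one]
      apply ENNReal.ofReal_le_ofReal
      have h1 : c ≤ 1 / (2 * (N : ℝ)) ^ (3 / 2 : ℝ) := by rw [hc]; exact min_le_left _ _
      have h2 : (n : ℝ) ^ (3 / 2 : ℝ) ≤ (2 * (N : ℝ)) ^ (3 / 2 : ℝ) :=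
        Real.rpow_le_rpow hnr.le (by exact_mod_cast hn2.le) (by norm_num)
      calc c * (n : ℝ) ^ (3 / 2 : ℝ) ≤ 1 / (2 * (N : ℝ)) ^ (3 / 2 : ℝ) * (2 * (N : ℝ)) ^ (3 / 2 : ℝ) :=
            mul_le_mul h1 h2 (by positivity) (by positivity)
        _ = 1 := one_div_mul_cancel (by positivity)
  · have hn2' : 2 * N ≤ n := not_lt.1 hn2
    choose x0 hx0 hx1 using fun i => exists_ball (hf i) (hf0 i) (hf1 i)
    obtain ⟨a, ha, I, hI, hIa⟩ := hnet n x0 hx0
    have hI2 : 2 ≤ I.card := by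
      by_contra h
      have h1 : I.card ≤ 1 := by omega
      have h2 : N * I.card ≤ N * 1 := Nat.mul_le_mul_left _ h1
      omega
    obtain ⟨A, B, hA, hB, hAB, hcard⟩ := exists_halves I hI2
    obtain ⟨t, ht, htr, hev⟩ := hlow n hn
    have hbd : ∀ i ∈ I, ∀ x, ‖x - a‖ ≤ r / 2 → (1 / 10 : ℝ) ≤ f i x := by
      intro i hi x hx
      refine hx1 i x (le_trans ?_ hrK)
      calc ‖x - x0 i‖ = ‖(x - a) - (x0 i - a)‖ := by congr 1; abel
        _ ≤ ‖x - a‖ + ‖x0 i - a‖ := norm_sub_le _ _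
        _ ≤ r / 2 + r / 2 := add_le_add hx (hIa i hi)
        _ = r := by ring
    have hfm : ∀ i, Measurable (f i) := fun i => (hf i).continuous.measurable
    have hgm : ∀ i, Measurable (g i) := fun i => (hg i).continuous.measurable
    have hfM : ∀ i x, (f i x : ℝ) ≤ 4 * K := by
      intro i x
      have := Vor.density_bound (hf i) (fun w hw => hf0 i w (lt_trans (by norm_num) hw)) x
      exact_mod_cast this
    have hgM : ∀ i x, (g i x : ℝ) ≤ 4 * K := by
      intro i x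
      have := Vor.density_bound (hg i) (fun w hw => hg0 i w (lt_trans (by norm_num) hw)) x
      exact_mod_cast this
    obtain ⟨hm, hs⟩ := who_sum
      (fun i => (volume : Measure E).withDensity (fun x => (f i x : ℝ≥0∞)))
      (fun i => (volume : Measure E).withDensity (fun x => (g i x : ℝ≥0∞)))
      (fun i => withDensity_absolutelyContinuous _ _) A B hAB a (r := r) (t := t) (κ := κ)
      (C0 := ENNReal.ofReal (c0 / Real.sqrt n))
      (fun i hi j hj u hu hk => hev f hfm hf1 hf0 hfM a ha i j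
        (fun e => Finset.disjoint_left.1 hAB hi (e ▸ hj)) (hbd i (hA hi)) (hbd j (hB hj)) u hu hk)
      (fun i j hij => prob_dir hgm hg1 hg0 hgM hij hκ0 hκ1 hκM)
    refine ⟨_, hm, fun q => ?_, ?_⟩
    · by_cases hq : ∀ k, q.2 k ≠ 0
      · rw [if_pos hq, Faces_normalize hq q.1]
        have h1 := pairs_le (u := fun k => ‖q.2 k‖⁻¹ • q.2 k) (p := q.1) (who_unit hq) (a := a)
          ht htr A B hAB (B := univ) (subset_univ _)
        refine le_trans ?_ (h1.trans ?_)
        · exact le_of_eq (by unfold Gc; rfl)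
        · exact_mod_cast hfull (fun k => ‖q.2 k‖⁻¹ • q.2 k) q.1
      · rw [if_neg hq]
        exact bot_le
    · refine le_trans ?_ hs
      exact who_num hn hN hc0 (by rw [hc]; exact min_le_right _ _) hI hcard
-- END who

end Pool.Agent.Vlb
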