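import Pool.Agent.Vor.Faces

/-!
Pairs of lines which come close: a lower bound for the number of faces
-/

set_option autoImplicit false

namespace Pool.Agent.Vlb

open MeasureTheory Set
open scoped ENNReal NNReal
open Pool.Agent.Vor (E dl line Near Faces)

/-- the coefficient of `u` in the plane spanned by `u` and `u'` -/
noncomputable def rr (u u' w : E) : ℝ :=
  ((inner ℝ u w : ℝ) - (inner ℝ u u' : ℝ) * (inner ℝ u' w : ℝ)) / (1 - (inner ℝ u u' : ℝ) ^ 2)

/-- the component orthogonal to `u` and `u'` -/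
noncomputable def rem (u u' w : E) : E := w - rr u u' w • u - rr u' u w • u'

/-- difference vectors `w` for which the lines come close -/
def Gd (u u' : E) (r t : ℝ) : Set E :=
  {w | |rr u u' w| ≤ r / 16 ∧ |rr u' u w| ≤ r / 16 ∧ ‖rem u u' w‖ ≤ t}

/-- the lines `i` and `j` come close near `a`, the others are far from that place -/
def Ev {n : ℕ} (u p : Fin n → E) (a : E) (r t : ℝ) (i j : Fin n) : Prop :=
  (‖p i - a‖ ≤ r / 4 ∧ p j - p i ∈ Gd (u i) (u j) r t) ∧
    ∀ k, k ≠ i → k ≠ j → 3 * t < dl (u k) (p i + rr (u i) (u j) (p j - p i) • u i - p k)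

-- BEGIN box
private theorem box_basis {u e : E} (hu : ‖u‖ = 1) (he : ‖e‖ = 1) (hue : inner ℝ u e = (0 : ℝ)) :
    ∃ b : OrthonormalBasis (Fin 3) ℝ E, b 0 = u ∧ b 1 = e := by
  have h1 : Orthonormal ℝ (({0, 1} : Set (Fin 3)).domRestrict (fun i => if i = 0 then u else e)) := by
    constructor
    · rintro ⟨i, hi⟩
      show ‖(if i = 0 then u else e)‖ = 1
      split_ifs
      · exact hu
      · exact he
    · rintro ⟨i, hi⟩ ⟨j, hj⟩ hij
      show inner ℝ (if i = 0 then u else e) (if j = 0 then u else e) = (0 : ℝ)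
      rcases hi with rfl | hi
      · rcases hj with rfl | hj
        · exact absurd rfl hij
        · rw [mem_singleton_iff] at hj
          subst hj
          simpa using hue
      · rw [mem_singleton_iff] at hi
        subst hi
        rcases hj with rfl | hj
        · rw [real_inner_comm]
          simpa using hue
        · rw [mem_singleton_iff] at hj
          subst hj
          exact absurd rfl hij
  obtain ⟨b, hb⟩ := Orthonormal.exists_orthonormalBasis_extension_of_card_eq (ι := Fin 3) (by simp) h1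
  refine ⟨b, ?_, ?_⟩
  · have := hb 0 (by simp)
    simpa using this
  · have := hb 1 (by simp)
    simpa using this

/-- Orthonormal basis `b` with `b 0 = u`, `b 1 = (1-c²)^(-1/2) (u' - c u)`, `c = ⟪u,u'⟫` (`Orthonormal.exists_orthonormalBasis_extension_of_card_eq`, see `Vor.rot_basis`). With `x = b.repr w`, `s = √(1-c²) ≥ κ`: `rr u' u w = x₁ / s`, `rr u u' w = x₀ - c x₁ / s`, `rem u u' w = x₂ b₂`. So the set contains all `w` with `|x₀| ≤ r/32`, `|x₁| ≤ κ r/32`, `|x₂| ≤ t`, a box of volume `κ r² t / 128` (`b.measurePreserving_repr`, `PiLp.volume_preserving_ofLp`, `Real.volume_Icc_pi` or `volume_pi_pi`). -/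
theorem vol_Gd {u u' : E} (hu : ‖u‖ = 1) (hu' : ‖u'‖ = 1) {κ : ℝ} (hκ : 0 < κ)
    (h : κ ^ 2 ≤ 1 - (inner ℝ u u' : ℝ) ^ 2) {r t : ℝ} (hr : 0 < r) (ht : 0 ≤ t) :
    ENNReal.ofReal (κ * r ^ 2 * t / 128) ≤ volume (Gd u u' r t) := by
  obtain ⟨c, hc⟩ : ∃ c : ℝ, inner ℝ u u' = c := ⟨_, rfl⟩
  have hc' : inner ℝ u' u = c := by rw [real_inner_comm, hc]
  rw [hc] at h
  have hs0 : 0 < 1 - c ^ 2 := lt_of_lt_of_le (by positivity) h
  obtain ⟨s, hs, hs2⟩ : ∃ s : ℝ, 0 < s ∧ s ^ 2 = 1 - c ^ 2 :=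
    ⟨Real.sqrt (1 - c ^ 2), Real.sqrt_pos.2 hs0, Real.sq_sqrt hs0.le⟩
  have hκs : κ ≤ s := by
    rw [← hs2] at h
    exact (sq_le_sq₀ hκ.le hs.le).1 h
  have huu : inner ℝ u u = (1 : ℝ) := by rw [real_inner_self_eq_norm_sq, hu]; norm_num
  have huu' : inner ℝ u' u' = (1 : ℝ) := by rw [real_inner_self_eq_norm_sq, hu']; norm_num
  set e : E := s⁻¹ • (u' - c • u) with he
  have hue : inner ℝ u e = (0 : ℝ) := by
    rw [he, inner_smul_right, inner_sub_right, inner_smul_right, hc, huu]
    ring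
  have hee : ‖e‖ = 1 := by
    have h1 : ‖e‖ ^ 2 = 1 := by
      rw [← real_inner_self_eq_norm_sq, he, inner_smul_left, inner_smul_right, inner_sub_left,
        inner_sub_right, inner_sub_right, inner_smul_left, inner_smul_left, inner_smul_right,
        inner_smul_right, hc, hc', huu, huu']
      simp only [conj_trivial]
      have : (1 - c * c - (c * c - c * (c * 1)) : ℝ) = s ^ 2 := by rw [hs2]; ring
      rw [this]
      field_simp
    nlinarith [norm_nonneg e]
  obtain ⟨b, hb0, hb1⟩ := box_basis hu hee hue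
  have hu'e : u' = c • u + s • e := by
    rw [he, smul_smul, mul_inv_cancel₀ hs.ne', one_smul]
    abel
  have hx0 : ∀ w, inner ℝ u w = b.repr w 0 := fun w => by rw [b.repr_apply_apply, hb0]
  have hx1 : ∀ w, inner ℝ e w = b.repr w 1 := fun w => by rw [b.repr_apply_apply, hb1]
  have hxu' : ∀ w, inner ℝ u' w = c * b.repr w 0 + s * b.repr w 1 := by
    intro w
    rw [hu'e, inner_add_left, inner_smul_left, inner_smul_left, hx0, hx1]
    simp only [conj_trivial]
  have hr1 : ∀ w, rr u u' w = b.repr w 0 - c * b.repr w 1 / s := by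
    intro w
    rw [rr, hc, hx0, hxu', ← hs2]
    have : (b.repr w 0 - c * (c * b.repr w 0 + s * b.repr w 1) : ℝ) =
        s ^ 2 * b.repr w 0 - c * s * b.repr w 1 := by rw [hs2]; ring
    rw [this]
    field_simp
  have hr2 : ∀ w, rr u' u w = b.repr w 1 / s := by
    intro w
    rw [rr, hc', hx0, hxu', ← hs2]
    field_simp
    ring
  have hr3 : ∀ w, ‖rem u u' w‖ = |b.repr w 2| := by
    intro w
    have h1 : rem u u' w = b.repr w 2 • b 2 := by
      have h2 := b.sum_repr w
      rw [Fin.sum_univ_three, hb0, hb1] at h2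
      rw [rem, hr1, hr2, hu'e, smul_add, smul_smul, smul_smul, div_mul_cancel₀ _ hs.ne']
      nth_rewrite 1 [← h2]
      rw [sub_smul]
      have : b.repr w 1 / s * c = c * b.repr w 1 / s := by ring
      rw [this]
      abel
    rw [h1, norm_smul, b.orthonormal.1 2, mul_one, Real.norm_eq_abs]
  have hφ : MeasurePreserving (fun w : E => (WithLp.ofLp (b.repr w) : Fin 3 → ℝ)) volume volume :=
    (PiLp.volume_preserving_ofLp _).comp b.measurePreserving_repr
  set A : Fin 3 → ℝ := ![r / 32, κ * r / 32, t] with hA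
  have hvol : volume (Icc (-A) A) = ENNReal.ofReal (κ * r ^ 2 * t / 128) := by
    rw [Real.volume_Icc_pi, Fin.prod_univ_three, ← ENNReal.ofReal_mul, ← ENNReal.ofReal_mul]
    · congr 1
      simp [hA]
      ring
    · simp [hA]
      positivity
    · simp [hA]
      positivity
  rw [← hvol, ← hφ.measure_preimage measurableSet_Icc.nullMeasurableSet]
  refine measure_mono fun w hw => ?_
  have hw0 : |b.repr w 0| ≤ r / 32 := abs_le.2 ⟨by simpa [hA] using hw.1 0, by simpa [hA] using hw.2 0⟩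
  have hw1 : |b.repr w 1| ≤ κ * r / 32 := abs_le.2 ⟨by simpa [hA] using hw.1 1, by simpa [hA] using hw.2 1⟩
  have hw2 : |b.repr w 2| ≤ t := abs_le.2 ⟨by simpa [hA] using hw.1 2, by simpa [hA] using hw.2 2⟩
  have hq : |b.repr w 1| / s ≤ r / 32 := by
    rw [div_le_iff₀ hs]
    calc |b.repr w 1| ≤ κ * r / 32 := hw1
      _ ≤ s * r / 32 := by gcongr
      _ = r / 32 * s := by ring
  have hc1 : |c| ≤ 1 := by
    rw [← sq_le_one_iff_abs_le_one]
    linarith
  refine ⟨?_, ?_, ?_⟩
  · rw [hr1]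
    have h1 : |c * b.repr w 1 / s| ≤ r / 32 := by
      rw [abs_div, abs_mul, abs_of_pos hs, mul_div_assoc]
      calc |c| * (|b.repr w 1| / s) ≤ 1 * (r / 32) := by gcongr
        _ = r / 32 := one_mul _
    calc |b.repr w 0 - c * b.repr w 1 / s| ≤ |b.repr w 0| + |c * b.repr w 1 / s| := abs_sub _ _
      _ ≤ r / 16 := by linarith
  · rw [hr2, abs_div, abs_of_pos hs]
    linarith
  · rw [hr3]
    exact hw2
-- END box

-- BEGIN det
/-- `w = p j - p i`, `x₁ = p i + rr .. w • u i` is on the line `i`, `x₂ = x₁ + rem (u i) (u j) w = p j - rr (u j) (u i) w • u j` on the line `j`, `‖x₁ - x₂‖ ≤ t`. `D m x = infDist x (line (p m) (u m)) = dl (u m) (x - p m)` (`Vor.infDist_line`, 1-Lipschitz: `Vor.dl_basic`). On the segment from `x₁` to `x₂` the continuous function `D i - D j` goes from `≤ 0` to `≥ 0`: zero `x` (`intermediate_value_Icc` for `s ↦ x₁ + s (x₂ - x₁)`), `D i x = D j x ≤ t`, `D k x > 3t - t` for the others. `‖x - a‖ ≤ r/4 + r/16 + r/8 ≤ r/2`. -/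
theorem exists_pair {n : ℕ} {u p : Fin n → E} (hu : ∀ i, ‖u i‖ = 1) {a : E} {r t : ℝ} (ht : 0 < t)
    (htr : t ≤ r / 8) {i j : Fin n} (h : Ev u p a r t i j) :
    ∃ x ∈ Metric.closedBall a (r / 2), Near u p x = {i, j} := by
  obtain ⟨⟨h1, h2, h3, h4⟩, h5⟩ := h
  obtain ⟨w, hw⟩ : ∃ w : E, w = p j - p i := ⟨_, rfl⟩
  rw [← hw] at h2 h3 h4 h5
  obtain ⟨x1, hx1⟩ : ∃ x1 : E, x1 = p i + rr (u i) (u j) w • u i := ⟨_, rfl⟩
  rw [← hx1] at h5
  obtain ⟨z, hz⟩ : ∃ z : E, z = rem (u i) (u j) w := ⟨_, rfl⟩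
  rw [← hz] at h4
  have hD : ∀ (m : Fin n) (x : E), Metric.infDist x (line (p m) (u m)) = dl (u m) (x - p m) :=
    fun m x => Vor.infDist_line (hu m) x (p m)
  have hzero : ∀ (m : Fin n) (s : ℝ), dl (u m) (s • u m) = 0 := by
    intro m s
    unfold Vor.dl
    rw [inner_smul_right, real_inner_self_eq_norm_sq, hu m]
    simp
  have hlip : ∀ (m : Fin n) (x y : E), dl (u m) x ≤ dl (u m) y + ‖x - y‖ :=
    fun m => (Vor.dl_basic (hu m)).2.2.2.2.2
  have hnn : ∀ (m : Fin n) (x : E), 0 ≤ dl (u m) x := fun m => (Vor.dl_basic (hu m)).2.1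
  have e1 : dl (u i) (x1 - p i) = 0 := by
    rw [hx1, add_sub_cancel_left]
    exact hzero i _
  have e2 : dl (u j) (x1 + z - p j) = 0 := by
    have : x1 + z - p j = (-rr (u j) (u i) w) • u j := by
      rw [hx1, hz]
      unfold rem
      rw [neg_smul, hw]
      abel
    rw [this]
    exact hzero j _
  have hcont : ContinuousOn (fun s : ℝ => dl (u i) (x1 + s • z - p i) - dl (u j) (x1 + s • z - p j))
      (Icc 0 1) := by
    have hc : ∀ m : Fin n, Continuous fun s : ℝ => dl (u m) (x1 + s • z - p m) := fun m =>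
      (Vor.dl_basic (hu m)).1.comp (by fun_prop)
    exact ((hc i).sub (hc j)).continuousOn
  have hmem : (0 : ℝ) ∈ Icc ((fun s : ℝ => dl (u i) (x1 + s • z - p i) -
      dl (u j) (x1 + s • z - p j)) 0) ((fun s : ℝ => dl (u i) (x1 + s • z - p i) -
      dl (u j) (x1 + s • z - p j)) 1) := by
    constructor
    · show dl (u i) (x1 + (0 : ℝ) • z - p i) - dl (u j) (x1 + (0 : ℝ) • z - p j) ≤ 0
      rw [zero_smul, add_zero, e1]
      have := hnn j (x1 - p j)
      linarith
    · show 0 ≤ dl (u i) (x1 + (1 : ℝ) • z - p i) - dl (u j) (x1 + (1 : ℝ) • z - p j)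
      rw [one_smul, e2]
      have := hnn i (x1 + z - p i)
      linarith
  obtain ⟨s, ⟨hs0, hs1⟩, hs⟩ := intermediate_value_Icc zero_le_one hcont hmem
  have hs' : dl (u i) (x1 + s • z - p i) - dl (u j) (x1 + s • z - p j) = 0 := hs
  obtain ⟨x, hx⟩ : ∃ x : E, x = x1 + s • z := ⟨_, rfl⟩
  rw [← hx] at hs'
  have hsz : ‖s • z‖ ≤ t := by
    rw [norm_smul, Real.norm_eq_abs, abs_of_nonneg hs0]
    calc s * ‖z‖ ≤ 1 * ‖z‖ := mul_le_mul_of_nonneg_right hs1 (norm_nonneg _)
      _ ≤ t := by rw [one_mul]; exact h4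
  have hdi : dl (u i) (x - p i) ≤ t := by
    have := hlip i (x - p i) (x1 - p i)
    have e : x - p i - (x1 - p i) = s • z := by rw [hx]; abel
    rw [e, e1] at this
    linarith
  have hdj : dl (u j) (x - p j) = dl (u i) (x - p i) := by linarith
  have hdk : ∀ k, k ≠ i → k ≠ j → 2 * t < dl (u k) (x - p k) := by
    intro k hki hkj
    have h6 := h5 k hki hkj
    have h7 := hlip k (x1 - p k) (x - p k)
    have e : x1 - p k - (x - p k) = -(s • z) := by rw [hx]; abel
    rw [e, norm_neg] at h7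
    linarith
  refine ⟨x, ?_, ?_⟩
  · rw [Metric.mem_closedBall, dist_eq_norm]
    have e : x - a = (p i - a) + (rr (u i) (u j) w • u i + s • z) := by
      rw [hx, hx1]
      abel
    have h8 : ‖rr (u i) (u j) w • u i‖ ≤ r / 16 := by
      rw [norm_smul, hu i, mul_one, Real.norm_eq_abs]
      exact h2
    rw [e]
    have h9 := norm_add_le (p i - a) (rr (u i) (u j) w • u i + s • z)
    have h10 := norm_add_le (rr (u i) (u j) w • u i) (s • z)
    linarith
  · ext m
    unfold Vor.Near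
    simp only [hD]
    constructor
    · intro hm
      have hm' : ∀ k, dl (u m) (x - p m) ≤ dl (u k) (x - p k) := hm
      by_contra hcon
      have hmi : m ≠ i := fun e => hcon (by rw [e]; exact Set.mem_insert _ _)
      have hmj : m ≠ j := fun e => hcon (by rw [e]; exact Set.mem_insert_of_mem _ rfl)
      have := hdk m hmi hmj
      have := hm' i
      linarith
    · intro hm
      have hmi : dl (u m) (x - p m) = dl (u i) (x - p i) := by
        rcases hm with rfl | hm
        · rfl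
        · rw [Set.mem_singleton_iff.1 hm]
          exact hdj
      show ∀ k, dl (u m) (x - p m) ≤ dl (u k) (x - p k)
      intro k
      rw [hmi]
      by_cases hki : k = i
      · rw [hki]
      · by_cases hkj : k = j
        · rw [hkj, hdj]
        · have := hdk k hki hkj
          linarith
-- END det

-- BEGIN inj
open Classical in
/-- The pairs `(i,j)` in `I × J` with `Ev u p a r t i j` inject into the faces: `x` from row det, face `connectedComponentIn {y | Near u p y = Near u p x} x`; equal faces have the same label (every point `z` of the face has `Near u p z = Near u p x`: `connectedComponentIn_subset`, `mem_connectedComponentIn`), and `{i,j} = {i',j'}` with `i, i' ∈ I`, `j, j' ∈ J`, `I`, `J` disjoint gives `i = i'`, `j = j'`. `Set.encard_le_encard_of_injOn` or a `Finset` image; the left side is the number of the pairs. -/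
theorem pairs_le {n : ℕ} {u p : Fin n → E} (hu : ∀ i, ‖u i‖ = 1) {a : E} {r t : ℝ} (ht : 0 < t)
    (htr : t ≤ r / 8) (I J : Finset (Fin n)) (hIJ : Disjoint I J) {B : Set E}
    (hB : Metric.closedBall a (r / 2) ⊆ B) :
    (∑ i ∈ I, ∑ j ∈ J, if Ev u p a r t i j then (1 : ℝ≥0∞) else 0) ≤
      (({f | f ∈ Faces u p ∧ (f ∩ B).Nonempty}.encard : ℕ∞) : ℝ≥0∞) := by
  have hch : ∀ q : Fin n × Fin n, ∃ x : E, Ev u p a r t q.1 q.2 →
      x ∈ Metric.closedBall a (r / 2) ∧ Near u p x = {q.1, q.2} := by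
    intro q
    by_cases h : Ev u p a r t q.1 q.2
    · obtain ⟨x, hx, hx'⟩ := exists_pair hu ht htr h
      exact ⟨x, fun _ => ⟨hx, hx'⟩⟩
    · exact ⟨0, fun h' => absurd h' h⟩
  choose x hx using hch
  set S : Finset (Fin n × Fin n) := (I ×ˢ J).filter fun q => Ev u p a r t q.1 q.2 with hS
  have hsum : (∑ i ∈ I, ∑ j ∈ J, if Ev u p a r t i j then (1 : ℝ≥0∞) else 0) = (S.card : ℝ≥0∞) := by
    rw [hS, Finset.card_filter, Finset.sum_product]
    push_cast
    rfl
  have hcard : ((S.card : ℕ∞)) ≤ {f | f ∈ Faces u p ∧ (f ∩ B).Nonempty}.encard := by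
    rw [← Set.encard_coe_eq_coe_finsetCard]
    refine Set.encard_le_encard_of_injOn
      (f := fun q => connectedComponentIn {y | Near u p y = Near u p (x q)} (x q)) ?_ ?_
    · intro q hq
      have hq' := (Finset.mem_filter.mp (Finset.mem_coe.mp hq)).2
      have hm : x q ∈ connectedComponentIn {y | Near u p y = Near u p (x q)} (x q) :=
        mem_connectedComponentIn rfl
      exact ⟨⟨x q, rfl⟩, x q, hm, hB (hx q hq').1⟩
    · intro q hq q' hq' he
      have h1 := Finset.mem_filter.mp (Finset.mem_coe.mp hq)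
      have h2 := Finset.mem_filter.mp (Finset.mem_coe.mp hq')
      have h1m := Finset.mem_product.mp h1.1
      have h2m := Finset.mem_product.mp h2.1
      have hm : x q ∈ connectedComponentIn {y | Near u p y = Near u p (x q)} (x q) :=
        mem_connectedComponentIn rfl
      have he' : connectedComponentIn {y | Near u p y = Near u p (x q)} (x q) =
        connectedComponentIn {y | Near u p y = Near u p (x q')} (x q') := he
      rw [he'] at hm
      have h3' : x q ∈ {y | Near u p y = Near u p (x q')} := connectedComponentIn_subset _ _ hm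
      have h3 : Near u p (x q) = Near u p (x q') := h3'
      rw [(hx q h1.2).2, (hx q' h2.2).2] at h3
      have hd : ∀ i ∈ I, ∀ j ∈ J, i ≠ j := by
        intro i hi j hj e
        exact Finset.disjoint_left.mp hIJ hi (e ▸ hj)
      have h4 : q.1 = q'.1 := by
        have h5 : q.1 ∈ ({q'.1, q'.2} : Set (Fin n)) := by
          rw [← h3]
          exact Set.mem_insert _ _
        rcases h5 with h6 | h6
        · exact h6
        · exact absurd h6 (hd _ h1m.1 _ h2m.2)
      have h7 : q.2 = q'.2 := by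
        have h5 : q.2 ∈ ({q'.1, q'.2} : Set (Fin n)) := by
          rw [← h3]
          exact Set.mem_insert_of_mem _ rfl
        rcases h5 with h6 | h6
        · exact absurd h6.symm (hd _ h2m.1 _ h1m.2)
        · exact h6
      exact Prod.ext h4 h7
  rw [hsum]
  have h8 : ((S.card : ℕ∞) : ℝ≥0∞) ≤
      (({f | f ∈ Faces u p ∧ (f ∩ B).Nonempty}.encard : ℕ∞) : ℝ≥0∞) := by
    exact_mod_cast hcard
  simpa using h8
-- END inj

-- BEGIN mev
private theorem mev_rr {Ω : Type} [MeasurableSpace Ω] {u v w : Ω → E} (hu : Measurable u) (hv : Measurable v)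
    (hw : Measurable w) : Measurable fun ω => rr (u ω) (v ω) (w ω) := by
  unfold rr
  exact ((hu.inner hw).sub ((hu.inner hv).mul (hv.inner hw))).div (measurable_const.sub ((hu.inner hv).pow_const 2))

private theorem mev_Gd {Ω : Type} [MeasurableSpace Ω] {u v w : Ω → E} (hu : Measurable u) (hv : Measurable v)
    (hw : Measurable w) (r t : ℝ) : MeasurableSet {ω | w ω ∈ Gd (u ω) (v ω) r t} := by
  have h1 : Measurable fun ω => rr (u ω) (v ω) (w ω) := mev_rr hu hv hw
  have h2 : Measurable fun ω => rr (v ω) (u ω) (w ω) := mev_rr hv hu hw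
  have h3 : Measurable fun ω => rem (u ω) (v ω) (w ω) := by
    unfold rem
    exact (hw.sub (h1.smul hu)).sub (h2.smul hv)
  exact (measurableSet_le h1.abs measurable_const).inter
    ((measurableSet_le h2.abs measurable_const).inter (measurableSet_le h3.norm measurable_const))

private theorem mev_dl {Ω : Type} [MeasurableSpace Ω] {u w : Ω → E} (hu : Measurable u) (hw : Measurable w) :
    Measurable fun ω => dl (u ω) (w ω) := by
  have h1 : Measurable fun ω => (inner ℝ (u ω) (w ω) : ℝ) := hu.inner hw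
  have h2 : Measurable fun ω => (inner ℝ (u ω) (w ω) : ℝ) • u ω := h1.smul hu
  have h3 : Measurable fun ω => w ω - (inner ℝ (u ω) (w ω) : ℝ) • u ω := hw.sub h2
  exact h3.norm

/-- All functions in `Ev` are measurable (inner products, norms, `dl u w = ‖w - ⟪u,w⟫ u‖`, quotients); finite intersections. -/
theorem measurableSet_Ev {Ω : Type} [MeasurableSpace Ω] {n : ℕ} {u p : Ω → Fin n → E}
    (hu : ∀ i, Measurable fun ω => u ω i) (hp : ∀ i, Measurable fun ω => p ω i) (a : E) (r t : ℝ)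
    (i j : Fin n) :
    MeasurableSet {ω | Ev (u ω) (p ω) a r t i j} ∧
    MeasurableSet {ω | ‖p ω i - a‖ ≤ r / 4 ∧ p ω j - p ω i ∈ Gd (u ω i) (u ω j) r t} ∧
    ∀ k, MeasurableSet {ω | (‖p ω i - a‖ ≤ r / 4 ∧ p ω j - p ω i ∈ Gd (u ω i) (u ω j) r t) ∧
      dl (u ω k) (p ω i + rr (u ω i) (u ω j) (p ω j - p ω i) • u ω i - p ω k) ≤ 3 * t} := by
  have h1 : MeasurableSet {ω | ‖p ω i - a‖ ≤ r / 4 ∧ p ω j - p ω i ∈ Gd (u ω i) (u ω j) r t} :=
    (measurableSet_le ((hp i).sub measurable_const).norm measurable_const).inter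
      (mev_Gd (hu i) (hu j) ((hp j).sub (hp i)) r t)
  have h2 : ∀ k, Measurable fun ω =>
      dl (u ω k) (p ω i + rr (u ω i) (u ω j) (p ω j - p ω i) • u ω i - p ω k) := fun k =>
    mev_dl (hu k) (((hp i).add ((mev_rr (hu i) (hu j) ((hp j).sub (hp i))).smul (hu i))).sub (hp k))
  refine ⟨?_, h1, fun k => h1.inter (measurableSet_le (h2 k) measurable_const)⟩
  have h3 : {ω | Ev (u ω) (p ω) a r t i j} =
      {ω | ‖p ω i - a‖ ≤ r / 4 ∧ p ω j - p ω i ∈ Gd (u ω i) (u ω j) r t} ∩
      ⋂ k, ⋂ _ : k ≠ i, ⋂ _ : k ≠ j, {ω | 3 * t < dl (u ω k) (p ω i + rr (u ω i) (u ω j) (p ω j - p ω i) • u ω i - p ω k)} := by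
    ext ω
    simp only [Ev, mem_ofPred_eq, mem_inter_iff, mem_iInter]
  rw [h3]
  exact h1.inter (MeasurableSet.iInter fun k => MeasurableSet.iInter fun _ => MeasurableSet.iInter fun _ =>
    measurableSet_lt measurable_const (h2 k))
-- END mev

-- BEGIN one
/-- The face of the point 0. -/
theorem one_le {n : ℕ} (u p : Fin n → E) {B : Set E} (hB : (0 : E) ∈ B) :
    (1 : ℝ≥0∞) ≤ (({f | f ∈ Faces u p ∧ (f ∩ B).Nonempty}.encard : ℕ∞) : ℝ≥0∞) := by
  have h1 : ({f | f ∈ Faces u p ∧ (f ∩ B).Nonempty} : Set (Set E)).Nonempty := by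
    refine ⟨connectedComponentIn {y | Near u p y = Near u p 0} 0, ⟨0, rfl⟩, 0, ?_, hB⟩
    exact mem_connectedComponentIn rfl
  have h2 : (1 : ℕ∞) ≤ ({f | f ∈ Faces u p ∧ (f ∩ B).Nonempty} : Set (Set E)).encard :=
    Set.one_le_encard_iff_nonempty.mpr h1
  exact_mod_cast h2
-- END one

-- BEGIN fsc
/-- `line (p k) (v k) = line (p k) (‖v k‖⁻¹ • v k)` as `v k ≠ 0`, so `Near` and `Faces` are the same. -/
theorem Faces_normalize {n : ℕ} {v : Fin n → E} (hv : ∀ k, v k ≠ 0) (p : Fin n → E) :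
    Faces v p = Faces (fun k => ‖v k‖⁻¹ • v k) p := by
  have h1 : ∀ k, line (p k) (v k) = line (p k) (‖v k‖⁻¹ • v k) := by
    intro k
    have hk : ‖v k‖ ≠ 0 := norm_ne_zero_iff.mpr (hv k)
    ext y
    constructor
    · rintro ⟨t, rfl⟩
      exact ⟨t * ‖v k‖, by rw [smul_smul, mul_assoc, mul_inv_cancel₀ hk, mul_one]⟩
    · rintro ⟨t, rfl⟩
      exact ⟨t * ‖v k‖⁻¹, by rw [smul_smul]⟩
  have h2 : ∀ x, Near v p x = Near (fun k => ‖v k‖⁻¹ • v k) p x := by
    intro x
    unfold Near
    simp only [h1]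
  unfold Faces
  simp only [h2]
-- END fsc

end Pool.Agent.Vlb
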