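import Pool.Agent.Vlb.Geo

/-!
The probability that two lines come close and the others stay away
-/

set_option autoImplicit false

namespace Pool.Agent.Vlb

open MeasureTheory Set
open scoped ENNReal NNReal
open Pool.Agent.Vor (E dl line Near Faces)

-- BEGIN upd
/-- `MeasureTheory.lmarginal` (`lintegral_eq_lmarginal_univ`, `lmarginal_erase`, `lmarginal_singleton`), or `measurePreserving_piFinSuccAbove` and `lintegral_prod`. -/
theorem lintegral_update {n : ℕ} (μ : Fin n → Measure E) [∀ i, IsProbabilityMeasure (μ i)]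
    (k : Fin n) (f : (Fin n → E) → ℝ≥0∞) (hf : Measurable f) :
    ∫⁻ p, f p ∂(Measure.pi μ) =
      ∫⁻ p, (∫⁻ x, f (Function.update p k x) ∂(μ k)) ∂(Measure.pi μ) := by
  have hg : Measurable fun p : Fin n → E => ∫⁻ x, f (Function.update p k x) ∂(μ k) := by
    have h1 := hf.lmarginal (s := {k}) μ
    rw [lmarginal_singleton] at h1
    exact h1
  refine lintegral_eq_of_lmarginal_eq {k} hf hg ?_
  rw [lmarginal_singleton, lmarginal_singleton]
  funext p
  have h2 : ∀ x : E, (∫⁻ y, f (Function.update (Function.update p k x) k y) ∂(μ k)) =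
      ∫⁻ y, f (Function.update p k y) ∂(μ k) := by
    intro x
    simp only [Function.update_idem]
  simp only [h2, lintegral_const, measure_univ, mul_one]
-- END upd

-- BEGIN cyl
/-- `f ≤ M`, `f = 0` outside the unit ball; `{x | ‖x‖ ≤ 1, dl u (a - x) ≤ 3t}` is mapped by `x ↦ a - x` into `{w | ‖w‖ ≤ 3, w ∈ ring u 0 (4t)}`: `Vor.volume_ring_le` (`6 π 16 ≤ 400`), `measurePreserving_sub_left` or `Measure.IsNegInvariant`. -/
theorem cyl_prob {M : ℝ} {f : E → ℝ≥0} (hf : Measurable f) (hM : ∀ x, (f x : ℝ) ≤ M)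
    (h0 : ∀ x, 1 < ‖x‖ → f x = 0) {u : E} (hu : ‖u‖ = 1) {a : E} (ha : ‖a‖ ≤ 2) {t : ℝ} (ht : 0 < t) :
    ((volume : Measure E).withDensity fun x => (f x : ℝ≥0∞)) {x | dl u (a - x) ≤ 3 * t} ≤
      ENNReal.ofReal (400 * M * t ^ 2) := by
  have hM0 : 0 ≤ M := (f 0).2.trans (hM 0)
  have hdl : Continuous fun w : E => dl u w := by
    unfold Vor.dl
    fun_prop
  have hS : MeasurableSet {x : E | dl u (a - x) ≤ 3 * t} :=
    measurableSet_le (hdl.comp (continuous_const.sub continuous_id)).measurable measurable_const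
  have hR : MeasurableSet {w : E | ‖w‖ ≤ 3 ∧ w ∈ Vor.ring u 0 (4 * t)} := by
    have h1 : MeasurableSet {w : E | ‖w‖ ≤ 3} := measurableSet_le measurable_norm measurable_const
    have h2 : MeasurableSet {w : E | 0 ≤ dl u w} := measurableSet_le measurable_const hdl.measurable
    have h3 : MeasurableSet {w : E | dl u w < 4 * t} := measurableSet_lt hdl.measurable measurable_const
    exact h1.inter (h2.inter h3)
  have hB : MeasurableSet (Metric.closedBall (0 : E) 1) := measurableSet_closedBall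
  rw [withDensity_apply _ hS]
  have h1 : ∀ x, (f x : ℝ≥0∞) ≤ (Metric.closedBall (0 : E) 1).indicator (fun _ => ENNReal.ofReal M) x := by
    intro x
    by_cases hx : x ∈ Metric.closedBall (0 : E) 1
    · rw [indicator_of_mem hx, ← ENNReal.ofReal_coe_nnreal]
      exact ENNReal.ofReal_le_ofReal (hM x)
    · rw [indicator_of_notMem hx, h0 x (by simpa using hx)]
      simp
  refine (lintegral_mono h1).trans ?_
  rw [lintegral_indicator_const hB, Measure.restrict_apply hB]
  have h2 : volume (Metric.closedBall (0 : E) 1 ∩ {x | dl u (a - x) ≤ 3 * t}) ≤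
      ENNReal.ofReal (6 * Real.pi * ((4 * t) ^ 2 - 0 ^ 2)) := by
    refine le_trans ?_ (Vor.volume_ring_le hu le_rfl (by linarith))
    rw [← (Measure.measurePreserving_sub_left (volume : Measure E) a).measure_preimage hR.nullMeasurableSet]
    refine measure_mono fun x hx => ?_
    obtain ⟨hx1, hx2⟩ := hx
    have hx1' : ‖x‖ ≤ 1 := by simpa using hx1
    have hx2' : dl u (a - x) ≤ 3 * t := hx2
    refine ⟨?_, ?_, ?_⟩
    · show ‖a - x‖ ≤ 3
      exact (norm_sub_le a x).trans (by linarith)
    · exact norm_nonneg _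
    · show dl u (a - x) < 4 * t
      linarith
  refine (mul_le_mul_right h2 _).trans ?_
  rw [← ENNReal.ofReal_mul hM0]
  apply ENNReal.ofReal_le_ofReal
  have h3 := Real.pi_lt_d2
  have h4 : 0 ≤ M * t ^ 2 := by positivity
  nlinarith
-- END cyl

-- BEGIN pA
private theorem pA_norm {u u' : E} (hu : ‖u‖ = 1) (hu' : ‖u'‖ = 1) {r t : ℝ} {w : E}
    (hw : w ∈ Gd u u' r t) : ‖w‖ ≤ r / 8 + t := by
  obtain ⟨h1, h2, h3⟩ := hw
  have h4 : w = rr u u' w • u + rr u' u w • u' + rem u u' w := by
    unfold rem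
    abel
  have h5 : ‖rr u u' w • u‖ ≤ r / 16 := by
    rw [norm_smul, hu, mul_one, Real.norm_eq_abs]
    exact h1
  have h6 : ‖rr u' u w • u'‖ ≤ r / 16 := by
    rw [norm_smul, hu', mul_one, Real.norm_eq_abs]
    exact h2
  have h7 : ‖w‖ ≤ ‖rr u u' w • u‖ + ‖rr u' u w • u'‖ + ‖rem u u' w‖ := by
    have h8 := norm_add_le (rr u u' w • u + rr u' u w • u') (rem u u' w)
    have h9 := norm_add_le (rr u u' w • u) (rr u' u w • u')
    rw [← h4] at h8
    linarith
  linarith

private theorem pA_meas (u u' : E) (r t : ℝ) : MeasurableSet (Gd u u' r t) := by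
  have h1 : ∀ a b : E, Continuous fun w : E => rr a b w := by
    intro a b
    unfold rr
    fun_prop
  have h2 : Continuous fun w : E => rem u u' w := by
    unfold rem
    exact (continuous_id.sub ((h1 u u').smul continuous_const)).sub ((h1 u' u).smul continuous_const)
  have h3 : IsClosed (Gd u u' r t) := by
    have e : Gd u u' r t = {w | |rr u u' w| ≤ r / 16} ∩ ({w | |rr u' u w| ≤ r / 16} ∩ {w | ‖rem u u' w‖ ≤ t}) := rfl
    rw [e]
    exact (isClosed_le (h1 u u').abs continuous_const).inter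
      ((isClosed_le (h1 u' u).abs continuous_const).inter (isClosed_le h2.norm continuous_const))
  exact h3.measurableSet

private theorem pA_low {m0 : ℝ} (hm0 : 0 ≤ m0) {g : E → ℝ≥0} {T : Set E} (hT : MeasurableSet T)
    (hg : ∀ x ∈ T, m0 ≤ g x) :
    ENNReal.ofReal m0 * volume T ≤ ((volume : Measure E).withDensity fun x => (g x : ℝ≥0∞)) T := by
  rw [withDensity_apply _ hT, ← setLIntegral_const]
  refine setLIntegral_mono' hT (fun x hx => ?_)
  rw [← ENNReal.ofReal_coe_nnreal]
  exact ENNReal.ofReal_le_ofReal (hg x hx)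

/-- Row upd for `k = j` and the indicator of the set (row mev with `Ω = Fin n → E`, `p = id`): for `‖p i - a‖ ≤ r/4` the measure of `{x | x - p i ∈ Gd ..}` is at least `m0 · κ r² t / 128` (such `x` have `‖x - a‖ ≤ r/4 + r/16 + r/16 + t ≤ r/2`; row box, translation). Then the measure of `{p | ‖p i - a‖ ≤ r/4}` is `≥ m0 vol (ball a (r/4)) ≥ m0 r³/16` (`Measure.pi` evaluation: `measurePreserving_eval`). -/
theorem prob_A {n : ℕ} {m0 : ℝ} (hm0 : 0 ≤ m0) {f : Fin n → E → ℝ≥0} (hf : ∀ i, Measurable (f i))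
    (h1 : ∀ i, ∫⁻ x, f i x = 1) {i j : Fin n} (hij : i ≠ j) {a : E} {r : ℝ} (hr : 0 < r)
    (hi : ∀ x, ‖x - a‖ ≤ r / 2 → m0 ≤ f i x) (hj : ∀ x, ‖x - a‖ ≤ r / 2 → m0 ≤ f j x)
    {u : Fin n → E} (hu : ∀ i, ‖u i‖ = 1) {κ : ℝ} (hκ : 0 < κ)
    (hc : κ ^ 2 ≤ 1 - (inner ℝ (u i) (u j) : ℝ) ^ 2) {t : ℝ} (ht : 0 < t) (htr : t ≤ r / 8) :
    ENNReal.ofReal (m0 ^ 2 * κ * r ^ 5 * t / 2048) ≤
      (Measure.pi fun i => (volume : Measure E).withDensity fun x => (f i x : ℝ≥0∞))
        {p | ‖p i - a‖ ≤ r / 4 ∧ p j - p i ∈ Gd (u i) (u j) r t} := by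
  classical
  set μ : Fin n → Measure E := fun i => (volume : Measure E).withDensity fun x => (f i x : ℝ≥0∞)
    with hμ
  have hprob : ∀ i, IsProbabilityMeasure (μ i) := by
    intro i
    refine ⟨?_⟩
    rw [hμ]
    simp only
    rw [withDensity_apply _ MeasurableSet.univ, setLIntegral_univ]
    exact h1 i
  set S : Set (Fin n → E) := {p | ‖p i - a‖ ≤ r / 4 ∧ p j - p i ∈ Gd (u i) (u j) r t} with hS
  have hSm : MeasurableSet S :=
    (measurableSet_Ev (Ω := Fin n → E) (u := fun _ => u) (p := fun q => q)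
      (fun _ => measurable_const) (fun i => measurable_pi_apply i) a r t i j).2.1
  set B : Set (Fin n → E) := {p | ‖p i - a‖ ≤ r / 4} with hB
  have hBm : MeasurableSet B := by
    have h0 : Measurable fun p : Fin n → E => p i := measurable_pi_apply i
    have h3 : Measurable fun x : E => ‖x - a‖ := (continuous_id.sub continuous_const).norm.measurable
    have h2 : Measurable fun p : Fin n → E => ‖p i - a‖ := h3.comp h0
    exact measurableSet_le h2 measurable_const
  have hin : ∀ p ∈ B, ENNReal.ofReal (m0 * (κ * r ^ 2 * t / 128)) ≤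
      ∫⁻ x, S.indicator (fun _ => (1 : ℝ≥0∞)) (Function.update p j x) ∂(μ j) := by
    intro p hp
    set T : Set E := (fun x => x + -(p i)) ⁻¹' (Gd (u i) (u j) r t) with hT
    have hTm : MeasurableSet T := (measurable_id.add_const _) (pA_meas _ _ _ _)
    have h3 : ∀ x, S.indicator (fun _ => (1 : ℝ≥0∞)) (Function.update p j x) =
        T.indicator (fun _ => (1 : ℝ≥0∞)) x := by
      intro x
      have e1 : Function.update p j x i = p i := Function.update_of_ne hij x p
      have e2 : Function.update p j x j = x := Function.update_self j x p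
      have h4 : Function.update p j x ∈ S ↔ x ∈ T := by
        rw [hS, Set.mem_setOf_eq, e1, e2, hT, Set.mem_preimage, ← sub_eq_add_neg]
        exact ⟨fun h => h.2, fun h => ⟨hp, h⟩⟩
      by_cases hx : x ∈ T
      · rw [Set.indicator_of_mem hx, Set.indicator_of_mem (h4.2 hx)]
      · rw [Set.indicator_of_notMem hx, Set.indicator_of_notMem (fun h => hx (h4.1 h))]
    rw [lintegral_congr h3, lintegral_indicator_const hTm, one_mul]
    have h5 : ∀ x ∈ T, m0 ≤ f j x := by
      intro x hx
      apply hj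
      have h6 : ‖x - p i‖ ≤ r / 8 + t := by
        have h7 : x + -(p i) ∈ Gd (u i) (u j) r t := hx
        rw [← sub_eq_add_neg] at h7
        exact pA_norm (hu i) (hu j) h7
      have h8 : ‖p i - a‖ ≤ r / 4 := hp
      have h9 : ‖x - a‖ ≤ ‖x - p i‖ + ‖p i - a‖ := norm_sub_le_norm_sub_add_norm_sub _ _ _
      linarith
    have h10 := pA_low hm0 hTm h5
    have h11 : volume T = volume (Gd (u i) (u j) r t) := measure_preimage_add_right volume (-(p i)) _
    rw [h11] at h10
    refine le_trans ?_ h10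
    rw [ENNReal.ofReal_mul hm0]
    exact mul_le_mul_right (vol_Gd (hu i) (hu j) hκ hc hr ht.le) _
  have hPB : ENNReal.ofReal (m0 * (r ^ 3 / 16)) ≤ Measure.pi μ B := by
    have e1 : B = (Function.eval i) ⁻¹' (Metric.closedBall a (r / 4)) := by
      ext p
      rw [hB, Set.mem_setOf_eq, Set.mem_preimage, Metric.mem_closedBall, dist_eq_norm]
    rw [e1, (measurePreserving_eval μ i).measure_preimage
      Metric.isClosed_closedBall.measurableSet.nullMeasurableSet]
    have h2 : ∀ x ∈ Metric.closedBall a (r / 4), m0 ≤ f i x := by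
      intro x hx
      apply hi
      rw [Metric.mem_closedBall, dist_eq_norm] at hx
      linarith
    refine le_trans ?_ (pA_low hm0 Metric.isClosed_closedBall.measurableSet h2)
    rw [ENNReal.ofReal_mul hm0]
    refine mul_le_mul_right ?_ _
    rw [EuclideanSpace.volume_closedBall_fin_three, ← ENNReal.ofReal_pow (by positivity),
      ← ENNReal.ofReal_mul (by positivity)]
    apply ENNReal.ofReal_le_ofReal
    have hpi := Real.pi_gt_three
    have hr3 : 0 < r ^ 3 := by positivity
    nlinarith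
  have h12 : Measure.pi μ S = ∫⁻ p, S.indicator (fun _ => (1 : ℝ≥0∞)) p ∂(Measure.pi μ) := by
    rw [lintegral_indicator_const hSm, one_mul]
  rw [h12, lintegral_update μ j _ (measurable_const.indicator hSm)]
  calc ENNReal.ofReal (m0 ^ 2 * κ * r ^ 5 * t / 2048)
      = ENNReal.ofReal (m0 * (κ * r ^ 2 * t / 128)) * ENNReal.ofReal (m0 * (r ^ 3 / 16)) := by
        rw [← ENNReal.ofReal_mul (by positivity)]
        congr 1
        ring
    _ ≤ ENNReal.ofReal (m0 * (κ * r ^ 2 * t / 128)) * Measure.pi μ B := mul_le_mul_right hPB _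
    _ = ∫⁻ _ in B, ENNReal.ofReal (m0 * (κ * r ^ 2 * t / 128)) ∂(Measure.pi μ) := by
        rw [setLIntegral_const]
    _ ≤ ∫⁻ p in B, (∫⁻ x, S.indicator (fun _ => (1 : ℝ≥0∞)) (Function.update p j x) ∂(μ j)) ∂(Measure.pi μ) :=
        setLIntegral_mono' hBm hin
    _ ≤ ∫⁻ p, (∫⁻ x, S.indicator (fun _ => (1 : ℝ≥0∞)) (Function.update p j x) ∂(μ j)) ∂(Measure.pi μ) :=
        setLIntegral_le_lintegral _ _
-- END pA

-- BEGIN pB
/-- Row upd for `k`: the first two conditions and the point `p i + rr .. • u i` do not depend on the coordinate `k` (`Function.update_of_ne`), and that point has norm `≤ 1 + r/4 + r/16 ≤ 2`: row cyl. -/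
theorem prob_B {n : ℕ} {M : ℝ} {f : Fin n → E → ℝ≥0} (hf : ∀ i, Measurable (f i))
    (h1 : ∀ i, ∫⁻ x, f i x = 1) {i j k : Fin n} (hki : k ≠ i) (hkj : k ≠ j)
    (hM : ∀ x, (f k x : ℝ) ≤ M) (h0 : ∀ x, 1 < ‖x‖ → f k x = 0) {u : Fin n → E}
    (hu : ∀ i, ‖u i‖ = 1) {a : E} (ha : ‖a‖ ≤ 1) {r : ℝ} (hr : 0 < r) (hr1 : r ≤ 1)
    {t : ℝ} (ht : 0 < t) :
    (Measure.pi fun i => (volume : Measure E).withDensity fun x => (f i x : ℝ≥0∞))
        {p | (‖p i - a‖ ≤ r / 4 ∧ p j - p i ∈ Gd (u i) (u j) r t) ∧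
          dl (u k) (p i + rr (u i) (u j) (p j - p i) • u i - p k) ≤ 3 * t} ≤
      ENNReal.ofReal (400 * M * t ^ 2) *
        (Measure.pi fun i => (volume : Measure E).withDensity fun x => (f i x : ℝ≥0∞))
          {p | ‖p i - a‖ ≤ r / 4 ∧ p j - p i ∈ Gd (u i) (u j) r t} := by
  set ν : Fin n → Measure E := fun i => (volume : Measure E).withDensity fun x => (f i x : ℝ≥0∞) with hν
  have hprob : ∀ i, IsProbabilityMeasure (ν i) := by
    intro i
    constructor
    rw [hν]
    show ((volume : Measure E).withDensity fun x => (f i x : ℝ≥0∞)) univ = 1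
    rw [withDensity_apply _ MeasurableSet.univ, Measure.restrict_univ]
    exact h1 i
  obtain ⟨_, hA, hB⟩ := measurableSet_Ev (Ω := Fin n → E) (u := fun _ => u) (p := fun p => p)
    (fun i => measurable_const) (fun i => measurable_pi_apply i) a r t i j
  replace hB := hB k
  set A : Set (Fin n → E) := {p | ‖p i - a‖ ≤ r / 4 ∧ p j - p i ∈ Gd (u i) (u j) r t} with hAdef
  set B : Set (Fin n → E) := {p | (‖p i - a‖ ≤ r / 4 ∧ p j - p i ∈ Gd (u i) (u j) r t) ∧
          dl (u k) (p i + rr (u i) (u j) (p j - p i) • u i - p k) ≤ 3 * t} with hBdef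
  rw [← lintegral_indicator_one hB, lintegral_update ν k _ (measurable_one.indicator hB),
    ← lintegral_indicator_const hA]
  refine lintegral_mono fun p => ?_
  have hi' : ∀ x, Function.update p k x i = p i := fun x => Function.update_of_ne hki.symm _ _
  have hj' : ∀ x, Function.update p k x j = p j := fun x => Function.update_of_ne hkj.symm _ _
  have hk' : ∀ x, Function.update p k x k = x := fun x => Function.update_self _ _ _
  by_cases hp : p ∈ A
  · rw [indicator_of_mem hp]
    have hsub : ∀ x, B.indicator (1 : (Fin n → E) → ℝ≥0∞) (Function.update p k x) =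
        ({x | dl (u k) (p i + rr (u i) (u j) (p j - p i) • u i - x) ≤ 3 * t} : Set E).indicator 1 x := by
      intro x
      have : Function.update p k x ∈ B ↔
          x ∈ ({x | dl (u k) (p i + rr (u i) (u j) (p j - p i) • u i - x) ≤ 3 * t} : Set E) := by
        rw [hBdef, mem_setOf_eq, mem_setOf_eq, hi', hj', hk']
        exact ⟨fun h => h.2, fun h => ⟨hp, h⟩⟩
      by_cases hx : Function.update p k x ∈ B
      · rw [indicator_of_mem hx, indicator_of_mem (this.1 hx)]
        rfl
      · rw [indicator_of_notMem hx, indicator_of_notMem fun h => hx (this.2 h)]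
    simp only [hsub]
    have hdl : Continuous fun w : E => dl (u k) w := by
      unfold Vor.dl
      fun_prop
    have hS : MeasurableSet {x : E | dl (u k) (p i + rr (u i) (u j) (p j - p i) • u i - x) ≤ 3 * t} :=
      measurableSet_le (hdl.comp (continuous_const.sub continuous_id)).measurable measurable_const
    rw [lintegral_indicator_one hS]
    refine cyl_prob (hf k) hM h0 (hu k) ?_ ht
    calc ‖p i + rr (u i) (u j) (p j - p i) • u i‖
        = ‖(p i - a) + a + rr (u i) (u j) (p j - p i) • u i‖ := by rw [sub_add_cancel]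
      _ ≤ ‖p i - a‖ + ‖a‖ + ‖rr (u i) (u j) (p j - p i) • u i‖ :=
          (norm_add_le _ _).trans (add_le_add_left (norm_add_le _ _) _)
      _ ≤ r / 4 + 1 + r / 16 := by
          rw [norm_smul, hu i, mul_one, Real.norm_eq_abs]
          exact add_le_add (add_le_add hp.1 ha) hp.2.1
      _ ≤ 2 := by linarith
  · rw [indicator_of_notMem hp]
    have hz : ∀ x, B.indicator (1 : (Fin n → E) → ℝ≥0∞) (Function.update p k x) = 0 := by
      intro x
      refine indicator_of_notMem (fun h => hp ?_) _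
      have h2 := h.1
      rw [hi', hj'] at h2
      exact h2
    simp only [hz, lintegral_zero]
    exact le_rfl
-- END pB

-- BEGIN pev
/-- The set of row pA is contained in the union of `{Ev}` and of the sets of row pB for `k ≠ i, j`: `P(A) ≤ P(Ev) + n · 400 M t² P(A) ≤ P(Ev) + P(A)/2` (finite measure). -/
theorem prob_Ev {n : ℕ} {M m0 : ℝ} (hm0 : 0 ≤ m0) {f : Fin n → E → ℝ≥0}
    (hf : ∀ i, Measurable (f i)) (h1 : ∀ i, ∫⁻ x, f i x = 1) (h0 : ∀ i x, 1 < ‖x‖ → f i x = 0)
    (hM : ∀ i x, (f i x : ℝ) ≤ M) {i j : Fin n} (hij : i ≠ j) {a : E} (ha : ‖a‖ ≤ 1) {r : ℝ}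
    (hr : 0 < r) (hr1 : r ≤ 1) (hi : ∀ x, ‖x - a‖ ≤ r / 2 → m0 ≤ f i x)
    (hj : ∀ x, ‖x - a‖ ≤ r / 2 → m0 ≤ f j x) {u : Fin n → E} (hu : ∀ i, ‖u i‖ = 1) {κ : ℝ}
    (hκ : 0 < κ) (hc : κ ^ 2 ≤ 1 - (inner ℝ (u i) (u j) : ℝ) ^ 2) {t : ℝ} (ht : 0 < t)
    (htr : t ≤ r / 8) (htn : 800 * M * n * t ^ 2 ≤ 1) :
    ENNReal.ofReal (m0 ^ 2 * κ * r ^ 5 * t / 4096) ≤
      (Measure.pi fun i => (volume : Measure E).withDensity fun x => (f i x : ℝ≥0∞))
        {p | Ev u p a r t i j} := by
  have hpA := prob_A hm0 hf h1 hij hr hi hj hu hκ hc ht htr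
  have hprob : ∀ i, IsProbabilityMeasure ((volume : Measure E).withDensity fun x => (f i x : ℝ≥0∞)) := by
    intro i
    constructor
    rw [withDensity_apply _ MeasurableSet.univ, Measure.restrict_univ]
    exact h1 i
  have hM0 : 0 ≤ M := (f i 0).2.trans (hM i 0)
  have hpB : ∀ k, k ≠ i → k ≠ j → _ := fun k hki hkj => prob_B (k := k) hf h1 hki hkj (hM k) (h0 k) hu ha hr hr1 ht
  set P := Measure.pi fun i => (volume : Measure E).withDensity fun x => (f i x : ℝ≥0∞) with hP
  set A : Set (Fin n → E) := {p | ‖p i - a‖ ≤ r / 4 ∧ p j - p i ∈ Gd (u i) (u j) r t} with hAdef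
  have hsub : A ⊆ {p | Ev u p a r t i j} ∪ ⋃ k ∈ (Finset.univ.filter fun k : Fin n => k ≠ i ∧ k ≠ j),
      {p | (‖p i - a‖ ≤ r / 4 ∧ p j - p i ∈ Gd (u i) (u j) r t) ∧
          dl (u k) (p i + rr (u i) (u j) (p j - p i) • u i - p k) ≤ 3 * t} := by
    intro p hp
    by_cases h : p ∈ {p | Ev u p a r t i j}
    · exact Or.inl h
    · right
      have h2 : ¬ ∀ k, k ≠ i → k ≠ j → 3 * t < dl (u k) (p i + rr (u i) (u j) (p j - p i) • u i - p k) :=
        fun h3 => h ⟨hp, h3⟩
      push Not at h2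
      obtain ⟨k, hki, hkj, hk⟩ := h2
      rw [mem_iUnion₂]
      exact ⟨k, by simp [hki, hkj], hp, hk⟩
  have h3 : P A ≤ P {p | Ev u p a r t i j} + ENNReal.ofReal (1 / 2) * P A := by
    refine (measure_mono hsub).trans ((measure_union_le _ _).trans ?_)
    gcongr
    refine (measure_biUnion_finset_le _ _).trans ?_
    calc _ ≤ ∑ k ∈ (Finset.univ.filter fun k : Fin n => k ≠ i ∧ k ≠ j), ENNReal.ofReal (400 * M * t ^ 2) * P A :=
          Finset.sum_le_sum fun k hk => by
            rw [Finset.mem_filter] at hk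
            exact hpB k hk.2.1 hk.2.2
      _ ≤ n * (ENNReal.ofReal (400 * M * t ^ 2) * P A) := by
          rw [Finset.sum_const, nsmul_eq_mul]
          gcongr
          exact (Finset.card_filter_le _ _).trans (by simp)
      _ = ENNReal.ofReal (n * (400 * M * t ^ 2)) * P A := by
          rw [← mul_assoc, ENNReal.ofReal_mul (Nat.cast_nonneg n), ENNReal.ofReal_natCast]
      _ ≤ ENNReal.ofReal (1 / 2) * P A := by
          gcongr
          nlinarith
  have hfin : P A ≠ ∞ := measure_ne_top _ _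
  have hfin2 : P {p | Ev u p a r t i j} ≠ ∞ := measure_ne_top _ _
  obtain ⟨α, hα⟩ : ∃ α : ℝ, α = (P A).toReal := ⟨_, rfl⟩
  obtain ⟨β, hβ⟩ : ∃ β : ℝ, β = (P {p | Ev u p a r t i j}).toReal := ⟨_, rfl⟩
  have hα0 : 0 ≤ α := hα ▸ ENNReal.toReal_nonneg
  have hβ0 : 0 ≤ β := hβ ▸ ENNReal.toReal_nonneg
  have hA' : P A = ENNReal.ofReal α := by rw [hα, ENNReal.ofReal_toReal hfin]
  have hE' : P {p | Ev u p a r t i j} = ENNReal.ofReal β := by rw [hβ, ENNReal.ofReal_toReal hfin2]
  rw [hA', hE', ← ENNReal.ofReal_mul (by norm_num), ← ENNReal.ofReal_add hβ0 (by positivity),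
    ENNReal.ofReal_le_ofReal_iff (by positivity)] at h3
  rw [hA'] at hpA
  rw [hE']
  have h4 : m0 ^ 2 * κ * r ^ 5 * t / 2048 ≤ α := (ENNReal.ofReal_le_ofReal_iff hα0).1 hpA
  apply ENNReal.ofReal_le_ofReal
  linarith
-- END pev

-- BEGIN dir
/-- Row upd for `k = j` (indicator of the complement). With `û = ‖v i‖⁻¹ • v i` (if `v i = 0` the inner product is 0, nothing to show) and `x = v j`, `‖x‖ ≤ 1`: `1 - ⟪û, ‖x‖⁻¹ x⟫² < κ²` implies `x ≠ 0` and `dl û x = ‖x‖ √(1 - ⟪û, x̂⟫²) ≤ κ`; row cyl with `a = 0`, `t = κ/3`: probability `≤ 400 M κ²/9 ≤ 1/2`. -/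
theorem prob_dir {n : ℕ} {M : ℝ} {g : Fin n → E → ℝ≥0} (hg : ∀ i, Measurable (g i))
    (h1 : ∀ i, ∫⁻ x, g i x = 1) (h0 : ∀ i x, 1 < ‖x‖ → g i x = 0) (hM : ∀ i x, (g i x : ℝ) ≤ M)
    {i j : Fin n} (hij : i ≠ j) {κ : ℝ} (hκ : 0 < κ) (hκ1 : κ ≤ 1) (hκM : 90 * M * κ ^ 2 ≤ 1) :
    ENNReal.ofReal (1 / 2) ≤
      (Measure.pi fun i => (volume : Measure E).withDensity fun x => (g i x : ℝ≥0∞))
        {v | κ ^ 2 ≤ 1 - (inner ℝ (‖v i‖⁻¹ • v i) (‖v j‖⁻¹ • v j) : ℝ) ^ 2} := by
  set ν : Fin n → Measure E := fun i => (volume : Measure E).withDensity fun x => (g i x : ℝ≥0∞) with hν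
  have hprob : ∀ i, IsProbabilityMeasure (ν i) := by
    intro i
    constructor
    rw [hν]
    show ((volume : Measure E).withDensity fun x => (g i x : ℝ≥0∞)) univ = 1
    rw [withDensity_apply _ MeasurableSet.univ, Measure.restrict_univ]
    exact h1 i
  have hM0 : 0 ≤ M := (g i 0).2.trans (hM i 0)
  have hmeas : Measurable fun v : Fin n → E => (inner ℝ (‖v i‖⁻¹ • v i) (‖v j‖⁻¹ • v j) : ℝ) := by
    have h2 : ∀ l, Measurable fun v : Fin n → E => ‖v l‖⁻¹ • v l := fun l =>
      ((measurable_pi_apply l).norm.inv).smul (measurable_pi_apply l)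
    exact (h2 i).inner (h2 j)
  set C : Set (Fin n → E) := {v | 1 - (inner ℝ (‖v i‖⁻¹ • v i) (‖v j‖⁻¹ • v j) : ℝ) ^ 2 < κ ^ 2} with hC
  have hCm : MeasurableSet C := measurableSet_lt (measurable_const.sub (hmeas.pow_const 2)) measurable_const
  have hcompl : {v : Fin n → E | κ ^ 2 ≤ 1 - (inner ℝ (‖v i‖⁻¹ • v i) (‖v j‖⁻¹ • v j) : ℝ) ^ 2} = Cᶜ := by
    ext v
    rw [hC, mem_compl_iff, mem_setOf_eq, mem_setOf_eq, not_lt]
  have hCle : Measure.pi ν C ≤ ENNReal.ofReal (1 / 2) := by
    rw [← lintegral_indicator_one hCm, lintegral_update ν j _ (measurable_one.indicator hCm)]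
    have hle : ∀ v : Fin n → E, ∫⁻ x, C.indicator (1 : (Fin n → E) → ℝ≥0∞) (Function.update v j x) ∂(ν j) ≤
        ENNReal.ofReal (1 / 2) := by
      intro v
      have hi' : ∀ x, Function.update v j x i = v i := fun x => Function.update_of_ne hij _ _
      have hj' : ∀ x, Function.update v j x j = x := fun x => Function.update_self _ _ _
      by_cases hvi : v i = 0
      · have hz : ∀ x, C.indicator (1 : (Fin n → E) → ℝ≥0∞) (Function.update v j x) = 0 := by
          intro x
          refine indicator_of_notMem (fun h => ?_) _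
          rw [hC, mem_setOf_eq, hi', hvi, smul_zero, inner_zero_left] at h
          nlinarith
        simp only [hz, lintegral_zero]
        exact zero_le
      · have hvn : 0 < ‖v i‖ := norm_pos_iff.2 hvi
        obtain ⟨w, hw⟩ : ∃ w : E, w = ‖v i‖⁻¹ • v i := ⟨_, rfl⟩
        have hw1 : ‖w‖ = 1 := by
          rw [hw, norm_smul, norm_inv, norm_norm, inv_mul_cancel₀ hvn.ne']
        have hbd : ∀ x, C.indicator (1 : (Fin n → E) → ℝ≥0∞) (Function.update v j x) ≤
            ({x | dl w (0 - x) ≤ 3 * (κ / 3)} ∪ {x | 1 < ‖x‖} : Set E).indicator 1 x := by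
          intro x
          by_cases hx : Function.update v j x ∈ C
          · have hmem : x ∈ ({x | dl w (0 - x) ≤ 3 * (κ / 3)} ∪ {x | 1 < ‖x‖} : Set E) := by
              by_cases hx1 : 1 < ‖x‖
              · exact Or.inr hx1
              · left
                rw [not_lt] at hx1
                rw [hC, mem_setOf_eq, hi', hj', ← hw] at hx
                have hx0 : x ≠ 0 := by
                  rintro rfl
                  rw [smul_zero, inner_zero_right] at hx
                  nlinarith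
                have hxn : 0 < ‖x‖ := norm_pos_iff.2 hx0
                rw [inner_smul_right] at hx
                obtain ⟨c, hc⟩ : ∃ c : ℝ, inner ℝ w x = c := ⟨_, rfl⟩
                rw [hc] at hx
                have hd : dl w (0 - x) ^ 2 = ‖x‖ ^ 2 - c ^ 2 := by
                  unfold Vor.dl
                  rw [← real_inner_self_eq_norm_sq, zero_sub, inner_neg_right, hc, inner_sub_left,
                    inner_sub_right, inner_sub_right, inner_smul_left, inner_smul_right, inner_smul_left,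
                    inner_smul_right, inner_neg_left, inner_neg_right, inner_neg_left, inner_neg_right,
                    real_inner_self_eq_norm_sq, real_inner_self_eq_norm_sq, hw1, real_inner_comm w x, hc]
                  simp only [conj_trivial]
                  ring
                have hd2 : dl w (0 - x) ^ 2 ≤ κ ^ 2 := by
                  rw [hd]
                  have h5 : (1 - (‖x‖⁻¹ * c) ^ 2) * ‖x‖ ^ 2 = ‖x‖ ^ 2 - c ^ 2 := by
                    field_simp
                  rw [← h5]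
                  calc (1 - (‖x‖⁻¹ * c) ^ 2) * ‖x‖ ^ 2 ≤ κ ^ 2 * ‖x‖ ^ 2 := by
                        gcongr
                    _ ≤ κ ^ 2 * 1 := by
                        gcongr
                        exact pow_le_one₀ hxn.le hx1
                    _ = κ ^ 2 := mul_one _
                show dl w (0 - x) ≤ 3 * (κ / 3)
                have h6 : dl w (0 - x) ≤ κ := (sq_le_sq₀ (norm_nonneg _) hκ.le).1 hd2
                linarith
            rw [indicator_of_mem hx, indicator_of_mem hmem]
            exact le_rfl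
          · rw [indicator_of_notMem hx]
            exact zero_le
        refine (lintegral_mono hbd).trans ?_
        have hdl : Continuous fun z : E => dl w z := by
          unfold Vor.dl
          fun_prop
        have hS : MeasurableSet {x : E | dl w (0 - x) ≤ 3 * (κ / 3)} :=
          measurableSet_le (hdl.comp (continuous_const.sub continuous_id)).measurable measurable_const
        have hT : MeasurableSet {x : E | 1 < ‖x‖} := measurableSet_lt measurable_const measurable_norm
        rw [lintegral_indicator_one (hS.union hT)]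
        have hT0 : ν j {x : E | 1 < ‖x‖} = 0 := by
          show ((volume : Measure E).withDensity fun x => (g j x : ℝ≥0∞)) {x : E | 1 < ‖x‖} = 0
          rw [withDensity_apply _ hT]
          refine (setLIntegral_congr_fun hT (g := fun _ => 0) fun x hx => ?_).trans (by simp)
          show ((g j x : ℝ≥0) : ℝ≥0∞) = 0
          rw [h0 j x hx]
          rfl
        refine (measure_union_le _ _).trans ?_
        rw [hT0, add_zero]
        refine (cyl_prob (hg j) (hM j) (h0 j) hw1 (by simp) (by positivity)).trans ?_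
        apply ENNReal.ofReal_le_ofReal
        nlinarith
    refine (lintegral_mono hle).trans ?_
    rw [lintegral_const, measure_univ, mul_one]
  rw [hcompl, prob_compl_eq_one_sub hCm]
  refine le_trans ?_ (tsub_le_tsub_left hCle 1)
  rw [← ENNReal.ofReal_one, ← ENNReal.ofReal_sub _ (by norm_num)]
  apply ENNReal.ofReal_le_ofReal
  norm_num
-- END dir

end Pool.Agent.Vlb
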